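import Mathlib

/-!
# Characters for the free alternative algebra
-/

set_option autoImplicit false

universe u

namespace Pool.Agent.Q114.Sh

/-- `ℤ[Q]`, where `Q` is the root lattice of `PSL₃`; the pair `(i, j)` stands for
`i α₁ + j α₂`. -/
abbrev L := AddMonoidAlgebra ℤ (ℤ × ℤ)

/-- `e^μ` -/
noncomputable def ex (μ : ℤ × ℤ) : L := AddMonoidAlgebra.single μ 1

/-- The weights of the adjoint module `L(α₁ + α₂)`. -/
def wt : Fin 8 → ℤ × ℤ := ![(1, 0), (0, 1), (1, 1), (-1, 0), (0, -1), (-1, -1), (0, 0), (0, 0)]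

/-- The multiplicity of `L(μ)` in the class with character `f` (Weyl's character formula): the
coefficient of `e^μ` in `f ∏ (1 - e^{-α})`, `α` over the positive roots. -/
noncomputable def mult (μ : ℤ × ℤ) (f : L) : ℤ :=
  (f * ((1 - ex (-1, 0)) * (1 - ex (0, -1)) * (1 - ex (-1, -1)))).coeff μ

/-- `∏ λ(x^n [L(α₁ + α₂)])^(a n) λ(x^n [L(0)])^(b n)`, the product over the exponents `n` of degree
`1, …, N`; here `λ(x^n e^μ) = 1 - x^n e^μ`. -/
noncomputable def lam {d : ℕ} (N : ℕ) (a b : (Fin d →₀ ℕ) → ℕ) : MvPowerSeries (Fin d) L :=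
  ∏ j ∈ Finset.Icc 1 N, ∏ n ∈ Finset.univ.finsuppAntidiag j,
    ((∏ i, (1 - MvPowerSeries.monomial n (ex (wt i)))) ^ a n *
      (1 - MvPowerSeries.monomial n 1) ^ b n)

/-- `Φ = λ(a [L(α₁ + α₂)] + b [L(0)])`: for all `N`, up to degree `N` in `x`, the product of `Φ`
and of `λ` of the negative part is `λ` of the positive part. -/
def IsLam {d : ℕ} (a b : MvPowerSeries (Fin d) ℤ) (Φ : MvPowerSeries (Fin d) L) : Prop :=
  ∀ (N : ℕ) (n : Fin d →₀ ℕ), n.degree ≤ N →
    MvPowerSeries.coeff n (Φ * lam N (fun m => (-MvPowerSeries.coeff m a).toNat)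
      (fun m => (-MvPowerSeries.coeff m b).toNat)) =
    MvPowerSeries.coeff n (lam N (fun m => (MvPowerSeries.coeff m a).toNat)
      (fun m => (MvPowerSeries.coeff m b).toNat))

/-- `a` and `b` have zero constant term and `Φ = λ(a [L(α₁ + α₂)] + b [L(0)])` satisfies
`[Φ : L(0)] = 1` and `[Φ : L(α₁ + α₂)] = -(x₁ + ⋯ + x_d)`. -/
def IsPair {d : ℕ} (a b : MvPowerSeries (Fin d) ℤ) : Prop :=
  MvPowerSeries.coeff 0 a = 0 ∧ MvPowerSeries.coeff 0 b = 0 ∧
  ∃ Φ : MvPowerSeries (Fin d) L, IsLam a b Φ ∧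
    (∀ n, mult (0, 0) (MvPowerSeries.coeff n Φ) = if n = 0 then 1 else 0) ∧
    (∀ n, mult (1, 1) (MvPowerSeries.coeff n Φ) = if n.degree = 1 then -1 else 0)

/-- The two-sided ideal of the free nonassociative algebra on `d` generators that is generated by
all `(xx)y - x(xy)` and `(yx)x - y(xx)`; the quotient is the free alternative algebra `Alt(V)`. -/
noncomputable def altIdeal (k : Type u) [Field k] (d : ℕ) :
    Submodule k (FreeNonUnitalNonAssocAlgebra k (Fin d)) :=
  sInf {I | (∀ x y, (x * x) * y - x * (x * y) ∈ I) ∧ (∀ x y, (y * x) * x - y * (x * x) ∈ I) ∧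
    ∀ x y, y ∈ I → x * y ∈ I ∧ y * x ∈ I}

/-- The multidegree of a nonassociative word. -/
noncomputable def mdeg {d : ℕ} : FreeMagma (Fin d) → (Fin d →₀ ℕ)
  | .of i => Finsupp.single i 1
  | .mul x y => mdeg x + mdeg y

/-- The character of `Alt(V)`, `V = k^d`: the coefficient at `x^n` is the dimension of the weight
space of weight `n`, i.e. of the space spanned by the classes of the words of multidegree `n`. -/
noncomputable def chAlt (k : Type u) [Field k] (d : ℕ) : MvPowerSeries (Fin d) ℤ := fun n =>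
  (Module.finrank k ((Submodule.span k {f : FreeNonUnitalNonAssocAlgebra k (Fin d) |
    ∃ w : FreeMagma (Fin d), mdeg w = n ∧ f = MonoidAlgebra.single w 1}).map
      (altIdeal k d).mkQ) : ℤ)

end Pool.Agent.Q114.Sh
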