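import Mathlib

/-!
# Logarithmic derivatives of power series
-/

set_option autoImplicit false

namespace Pool.Agent.Q114.Sh

open PowerSeries

variable {R : Type*} [CommRing R]

/-- `X f' = - f s` -/
def LD (f s : R⟦X⟧) : Prop := X * derivative R f = -(f * s)

theorem LD.one : LD (1 : R⟦X⟧) 0 := by
  unfold LD
  rw [derivative_one]
  simp

theorem LD.mul {f g s t : R⟦X⟧} (hf : LD f s) (hg : LD g t) : LD (f * g) (s + t) := by
  unfold LD at *
  rw [Derivation.leibniz, smul_eq_mul, smul_eq_mul]
  linear_combination f * hg + g * hf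

theorem LD.pow {f s : R⟦X⟧} (hf : LD f s) (n : ℕ) : LD (f ^ n) ((n : R⟦X⟧) * s) := by
  induction n with
  | zero => simpa using LD.one
  | succ n ih =>
    have := ih.mul hf
    rw [pow_succ]
    convert this using 1
    push_cast
    ring

theorem LD.prod {ι : Type*} (F : Finset ι) (f s : ι → R⟦X⟧) (h : ∀ i ∈ F, LD (f i) (s i)) :
    LD (∏ i ∈ F, f i) (∑ i ∈ F, s i) := by
  classical
  induction F using Finset.induction_on with
  | empty => simpa using LD.one
  | insert i F hi ih =>
    rw [Finset.prod_insert hi, Finset.sum_insert hi]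
    exact (h i (Finset.mem_insert_self _ _)).mul (ih fun j hj => h j (Finset.mem_insert_of_mem hj))

/-- The logarithmic derivative of `1 - c X^j`. -/
noncomputable def ser (j : ℕ) (c : R) : R⟦X⟧ :=
  PowerSeries.mk fun n => if j ∣ n ∧ n ≠ 0 then (j : R) * c ^ (n / j) else 0

theorem LD.ser {j : ℕ} (hj : 1 ≤ j) (c : R) : LD (1 - C c * X ^ j) (ser j c) := by
  unfold LD
  ext n
  have e1 : coeff n (X * derivative R (1 - C c * X ^ j)) = if n = j then - ((j : R) * c) else 0 := by
    rcases n with _ | m
    · rw [coeff_zero_X_mul, if_neg (by omega)]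
    · rw [coeff_succ_X_mul, coeff_derivative, map_sub, coeff_one, if_neg (Nat.succ_ne_zero m),
        zero_sub, coeff_C_mul, coeff_X_pow]
      split_ifs with h
      · rw [← h]
        push_cast
        ring
      · simp
  rw [e1, map_neg, sub_mul, one_mul, map_sub, mul_assoc, coeff_C_mul, coeff_X_pow_mul', Sh.ser,
    coeff_mk]
  by_cases hn : j ∣ n
  · obtain ⟨q, rfl⟩ := hn
    rcases q with _ | _ | q
    · simp
      intro h
      omega
    · rw [if_pos (by ring), if_pos ⟨dvd_mul_right _ _, by simp; omega⟩, if_pos (by simp)]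
      simp
      rw [Nat.div_self (by omega), pow_one]
    · have h1 : j * (q + 1 + 1) ≠ j := by
        intro h
        have : j * (q + 1 + 1) = j * 1 := by rw [h, mul_one]
        have := Nat.eq_of_mul_eq_mul_left (by omega) this
        omega
      have h2 : j * (q + 1 + 1) ≠ 0 := by positivity
      have h3 : j ≤ j * (q + 1 + 1) := Nat.le_mul_of_pos_right _ (by omega)
      have h4 : j * (q + 1 + 1) - j = j * (q + 1) := by
        rw [mul_add j (q + 1) 1, mul_one]
        omega
      have h5 : j * (q + 1) ≠ 0 := by positivity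
      rw [if_neg h1, if_pos ⟨dvd_mul_right _ _, h2⟩, if_pos h3, h4, coeff_mk,
        if_pos ⟨dvd_mul_right _ _, h5⟩, Nat.mul_div_cancel_left _ (by omega),
        Nat.mul_div_cancel_left _ (by omega)]
      ring
  · have h1 : n ≠ j := by
      rintro rfl
      exact hn dvd_rfl
    rw [if_neg h1, if_neg (fun h => hn h.1)]
    split_ifs with h2
    · rw [coeff_mk, if_neg]
      · simp
      · rintro ⟨h3, -⟩
        apply hn
        have : j ∣ (n - j) + j := dvd_add h3 dvd_rfl
        rwa [Nat.sub_add_cancel h2] at this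
    · simp

/-- The recursion for the coefficients of a quotient, up to degree `N`. -/
theorem rec_of_mul {φ M P s t : R⟦X⟧} {N : ℕ} (hM : LD M s) (hP : LD P t)
    (hM0 : constantCoeff M = 1) (h : ∀ m ≤ N, coeff m (φ * M) = coeff m P) {m : ℕ} (hm : m ≤ N) :
    (m : R) * coeff m φ = - ∑ ij ∈ Finset.HasAntidiagonal.antidiagonal m, coeff ij.1 φ * coeff ij.2 (t - s) := by
  have h1 : X ^ (N + 1) ∣ φ * M - P := by
    rw [X_pow_dvd_iff]
    intro m hm
    rw [map_sub, h m (by omega), sub_self]
  obtain ⟨g, hg⟩ := h1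
  have h2 : X ^ (N + 1) ∣ M * (X * derivative R φ + φ * (t - s)) := by
    have e : M * (X * derivative R φ + φ * (t - s)) =
        X * derivative R (φ * M - P) + (φ * M - P) * t := by
      unfold LD at hM hP
      rw [map_sub, Derivation.leibniz, smul_eq_mul, smul_eq_mul]
      linear_combination - φ * hM + hP
    rw [e, hg]
    refine dvd_add ?_ (by rw [mul_assoc]; exact dvd_mul_right _ _)
    rw [Derivation.leibniz, smul_eq_mul, smul_eq_mul, mul_add]
    refine dvd_add ?_ ?_
    · rw [mul_left_comm]
      exact dvd_mul_right _ _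
    · rw [Derivation.leibniz_pow, Nat.add_sub_cancel, derivative_X]
      refine ⟨((N + 1 : ℕ) : R⟦X⟧) * g, ?_⟩
      simp only [nsmul_eq_mul, smul_eq_mul]
      ring
  have h3 : IsUnit M := by
    rw [isUnit_iff_constantCoeff, hM0]
    exact isUnit_one
  have h4 : X ^ (N + 1) ∣ X * derivative R φ + φ * (t - s) := (h3.dvd_mul_left).1 h2
  rw [X_pow_dvd_iff] at h4
  have h5 := h4 m (by omega)
  rw [map_add, coeff_mul (n := m) (φ := φ)] at h5
  have h6 : coeff m (X * derivative R φ) = (m : R) * coeff m φ := by
    rcases m with _ | m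
    · simp
    · rw [coeff_succ_X_mul, coeff_derivative]
      push_cast
      ring
  rw [h6] at h5
  linear_combination h5

end Pool.Agent.Q114.Sh
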