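import Mathlib
import Pool.Agent.Q114.Sh.Ser

/-!
# Specialisation to one variable
-/

set_option autoImplicit false

namespace Pool.Agent.Q114.Sh

open Finset

variable {R : Type*} [CommRing R] {σ : Type*} [DecidableEq σ]

theorem mem_fa {s : Finset σ} {n : σ →₀ ℕ} {N : ℕ} :
    n ∈ s.finsuppAntidiag N ↔ n.degree = N ∧ n.support ⊆ s := by
  rw [Finset.mem_finsuppAntidiag']
  rfl

/-- The coefficient functions summed over the exponents supported in `s` of given degree. -/
noncomputable def tauFun (s : Finset σ) (f : MvPowerSeries σ R) : PowerSeries R :=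
  PowerSeries.mk fun N => ∑ n ∈ s.finsuppAntidiag N, MvPowerSeries.coeff n f

theorem coeff_tauFun (s : Finset σ) (f : MvPowerSeries σ R) (N : ℕ) :
    PowerSeries.coeff N (tauFun s f) = ∑ n ∈ s.finsuppAntidiag N, MvPowerSeries.coeff n f :=
  PowerSeries.coeff_mk _ _

theorem tauFun_mul (s : Finset σ) (f g : MvPowerSeries σ R) :
    tauFun s (f * g) = tauFun s f * tauFun s g := by
  ext N
  rw [coeff_tauFun, PowerSeries.coeff_mul]
  simp only [coeff_tauFun, MvPowerSeries.coeff_mul, Finset.sum_mul_sum, ← Finset.sum_product']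
  rw [Finset.sum_sigma', Finset.sum_sigma']
  refine Finset.sum_bij' (fun x _ => ⟨(x.2.1.degree, x.2.2.degree), x.2⟩)
    (fun x _ => ⟨x.2.1 + x.2.2, x.2⟩) ?_ ?_ ?_ ?_ ?_
  · rintro ⟨n, i, j⟩ h
    simp only [Finset.mem_sigma, mem_fa, Finset.HasAntidiagonal.mem_antidiagonal,
      Finset.mem_product] at h ⊢
    obtain ⟨⟨h1, h2⟩, h3⟩ := h
    subst h3
    refine ⟨by rw [← h1, map_add], ⟨trivial, ?_⟩, trivial, ?_⟩
    · intro x hx
      apply h2
      rw [Finsupp.mem_support_iff] at hx ⊢
      rw [Finsupp.add_apply]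
      omega
    · intro x hx
      apply h2
      rw [Finsupp.mem_support_iff] at hx ⊢
      rw [Finsupp.add_apply]
      omega
  · rintro ⟨⟨I, J⟩, i, j⟩ h
    simp only [Finset.mem_sigma, mem_fa, Finset.HasAntidiagonal.mem_antidiagonal,
      Finset.mem_product] at h ⊢
    obtain ⟨h0, ⟨h1, h2⟩, h3, h4⟩ := h
    refine ⟨⟨by rw [map_add, h1, h3, h0], ?_⟩, trivial⟩
    exact Finsupp.support_add.trans (Finset.union_subset h2 h4)
  · rintro ⟨n, i, j⟩ h
    simp only [Finset.mem_sigma, mem_fa, Finset.HasAntidiagonal.mem_antidiagonal] at h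
    obtain ⟨-, rfl⟩ := h
    rfl
  · rintro ⟨⟨I, J⟩, i, j⟩ h
    simp only [Finset.mem_sigma, mem_fa, Finset.HasAntidiagonal.mem_antidiagonal,
      Finset.mem_product] at h
    obtain ⟨h0, ⟨rfl, h2⟩, rfl, h4⟩ := h
    rfl
  · rintro ⟨n, i, j⟩ h
    rfl

theorem tauFun_monomial (s : Finset σ) (n : σ →₀ ℕ) (c : R) :
    tauFun s (MvPowerSeries.monomial n c) =
      if n.support ⊆ s then PowerSeries.C c * PowerSeries.X ^ n.degree else 0 := by
  classical
  ext N
  rw [coeff_tauFun]
  simp only [MvPowerSeries.coeff_monomial]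
  rw [Finset.sum_ite_eq' (s.finsuppAntidiag N) n fun _ => c]
  simp only [mem_fa]
  by_cases h : n.support ⊆ s
  · rw [if_pos h, PowerSeries.coeff_C_mul, PowerSeries.coeff_X_pow]
    by_cases h1 : n.degree = N
    · rw [if_pos ⟨h1, h⟩, if_pos h1.symm, mul_one]
    · rw [if_neg (fun h2 => h1 h2.1), if_neg (Ne.symm h1), mul_zero]
  · rw [if_neg h, if_neg (fun h2 => h h2.2), map_zero]

/-- The specialisation as a ring homomorphism. -/
noncomputable def tau (s : Finset σ) : MvPowerSeries σ R →+* PowerSeries R where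
  toFun := tauFun s
  map_one' := by
    have h := tauFun_monomial (R := R) s (0 : σ →₀ ℕ) 1
    rw [if_pos (by simp)] at h
    change tauFun s 1 = 1
    rw [← MvPowerSeries.monomial_zero_one, h]
    simp
  map_mul' := tauFun_mul s
  map_zero' := by
    ext N
    rw [coeff_tauFun]
    simp
  map_add' f g := by
    ext N
    rw [map_add, coeff_tauFun, coeff_tauFun, coeff_tauFun, ← Finset.sum_add_distrib]
    simp

theorem coeff_tau (s : Finset σ) (f : MvPowerSeries σ R) (N : ℕ) :
    PowerSeries.coeff N (tau s f) = ∑ n ∈ s.finsuppAntidiag N, MvPowerSeries.coeff n f :=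
  coeff_tauFun s f N

theorem tau_monomial (s : Finset σ) (n : σ →₀ ℕ) (c : R) :
    tau s (MvPowerSeries.monomial n c) =
      if n.support ⊆ s then PowerSeries.C c * PowerSeries.X ^ n.degree else 0 :=
  tauFun_monomial s n c

end Pool.Agent.Q114.Sh
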