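import Mathlib
import Pool.Agent.Q114.Sh.Defs
import Pool.Agent.Q114.Sh.Tau

/-!
# A lower bound for the character of the free alternative algebra
-/

set_option autoImplicit false

universe u

namespace Pool.Agent.Q114.Sh

variable (k : Type u) [Field k] (d : ℕ)

/-- The map onto the free associative algebra. -/
noncomputable def Psi : FreeNonUnitalNonAssocAlgebra k (Fin d) →ₙₐ[k]
    MonoidAlgebra k (FreeMonoid (Fin d)) :=
  FreeNonUnitalNonAssocAlgebra.lift k fun i => MonoidAlgebra.single (FreeMonoid.of i) 1

/-- the associative word of a nonassociative word -/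
def wd {d : ℕ} : FreeMagma (Fin d) → FreeMonoid (Fin d)
  | .of i => FreeMonoid.of i
  | .mul x y => wd x * wd y

theorem Psi_single (w : FreeMagma (Fin d)) :
    Psi k d (MonoidAlgebra.single w 1) = MonoidAlgebra.single (wd w) 1 := by
  induction w using FreeMagma.rec with
  | of i => exact FreeNonUnitalNonAssocAlgebra.lift_of_apply k _ i
  | mul x y hx hy =>
    have h1 : (MonoidAlgebra.single (FreeMagma.mul x y) 1 : FreeNonUnitalNonAssocAlgebra k (Fin d)) =
        MonoidAlgebra.single x 1 * MonoidAlgebra.single y 1 := by
      rw [MonoidAlgebra.single_mul_single, mul_one]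
      rfl
    rw [h1, map_mul, hx, hy, MonoidAlgebra.single_mul_single, mul_one, wd]

/-- The same as a linear map. -/
noncomputable def PsiL : FreeNonUnitalNonAssocAlgebra k (Fin d) →ₗ[k]
    MonoidAlgebra k (FreeMonoid (Fin d)) where
  toFun := Psi k d
  map_add' := map_add _
  map_smul' := map_smul _

theorem altIdeal_le : altIdeal k d ≤ LinearMap.ker (PsiL k d) := by
  apply sInf_le
  refine ⟨fun x y => ?_, fun x y => ?_, fun x y hy => ?_⟩
  · rw [LinearMap.mem_ker]
    change Psi k d _ = 0
    rw [map_sub, map_mul, map_mul, map_mul, map_mul, mul_assoc, sub_self]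
  · rw [LinearMap.mem_ker]
    change Psi k d _ = 0
    rw [map_sub, map_mul, map_mul, map_mul, map_mul, mul_assoc, sub_self]
  · rw [LinearMap.mem_ker] at hy
    change Psi k d _ = 0 at hy
    constructor
    · rw [LinearMap.mem_ker]
      change Psi k d _ = 0
      rw [map_mul, hy, mul_zero]
    · rw [LinearMap.mem_ker]
      change Psi k d _ = 0
      rw [map_mul, hy, zero_mul]

variable {d}

theorem mdeg_degree_pos (w : FreeMagma (Fin d)) : 1 ≤ (mdeg w).degree := by
  induction w using FreeMagma.rec with
  | of i => simp [mdeg]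
  | mul x y hx hy =>
    rw [mdeg, map_add]
    omega

theorem finite_mdeg (N : ℕ) : {w : FreeMagma (Fin d) | (mdeg w).degree ≤ N}.Finite := by
  induction N with
  | zero =>
    have : {w : FreeMagma (Fin d) | (mdeg w).degree ≤ 0} = ∅ := by
      ext w
      have := mdeg_degree_pos w
      simp only [Set.mem_ofPred_eq, Set.mem_empty_iff_false, iff_false]
      omega
    rw [this]
    exact Set.finite_empty
  | succ N ih =>
    refine Set.Finite.subset ((Set.finite_range FreeMagma.of).union
      (Set.Finite.image2 FreeMagma.mul ih ih)) ?_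
    intro w hw
    change (mdeg w).degree ≤ N + 1 at hw
    cases w with
    | of i => exact Or.inl ⟨i, rfl⟩
    | mul x y =>
      rw [mdeg, map_add] at hw
      have h1 := mdeg_degree_pos x
      have h2 := mdeg_degree_pos y
      refine Or.inr ⟨x, ?_, y, ?_, rfl⟩
      · change (mdeg x).degree ≤ N
        omega
      · change (mdeg y).degree ≤ N
        omega

/-- The span of the words of multidegree `n` is finite-dimensional. -/
theorem finite_span (n : Fin d →₀ ℕ) : Module.Finite k (Submodule.span k
    {f : FreeNonUnitalNonAssocAlgebra k (Fin d) |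
      ∃ w : FreeMagma (Fin d), mdeg w = n ∧ f = MonoidAlgebra.single w 1}) := by
  apply Module.Finite.span_of_finite
  refine Set.Finite.subset ((finite_mdeg n.degree).image fun w =>
    (MonoidAlgebra.single w 1 : FreeNonUnitalNonAssocAlgebra k (Fin d))) ?_
  rintro f ⟨w, hw, rfl⟩
  refine ⟨w, ?_, rfl⟩
  change (mdeg w).degree ≤ n.degree
  rw [hw]

/-- the right-normed word -/
def rn (i : Fin d) : List (Fin d) → FreeMagma (Fin d)
  | [] => .of i
  | j :: l => .mul (.of i) (rn j l)

theorem wd_rn (i : Fin d) (l : List (Fin d)) : wd (rn i l) = FreeMonoid.ofList (i :: l) := by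
  induction l generalizing i with
  | nil => rfl
  | cons j l ih =>
    rw [rn, wd, ih]
    rfl

theorem mdeg_rn (i : Fin d) (l : List (Fin d)) :
    mdeg (rn i l) = ((i :: l).map fun j => Finsupp.single j 1).sum := by
  induction l generalizing i with
  | nil => simp [rn, mdeg]
  | cons j l ih =>
    rw [rn, mdeg, ih, mdeg, List.map_cons, List.sum_cons]
    simp

/-- The character of the free alternative algebra is at least that of the free associative
algebra. -/
theorem card_le_chAlt (N : ℕ) (n : Fin d →₀ ℕ) :
    (((Finset.univ.filter fun v : Fin (N + 1) → Fin d =>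
      ((List.ofFn v).map fun j => Finsupp.single j 1).sum = n).card : ℕ) : ℤ) ≤
        MvPowerSeries.coeff n (chAlt k d) := by
  classical
  set W := Finset.univ.filter fun v : Fin (N + 1) → Fin d =>
      ((List.ofFn v).map fun j => Finsupp.single j 1).sum = n with hW
  set S := {f : FreeNonUnitalNonAssocAlgebra k (Fin d) |
      ∃ w : FreeMagma (Fin d), mdeg w = n ∧ f = MonoidAlgebra.single w 1} with hS
  have hfin : Module.Finite k (Submodule.span k S) := finite_span k n
  change _ ≤ ((Module.finrank k ((Submodule.span k S).map (altIdeal k d).mkQ) : ℕ) : ℤ)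
  rw [Nat.cast_le]
  let w : W → FreeMagma (Fin d) := fun v => rn (v.1 0) (List.ofFn fun i => v.1 i.succ)
  have hlist : ∀ v : W, v.1 0 :: (List.ofFn fun i => v.1 i.succ) = List.ofFn v.1 := by
    intro v
    rw [List.ofFn_succ]
  have hmem : ∀ v : W, (altIdeal k d).mkQ (MonoidAlgebra.single (w v) 1) ∈
      (Submodule.span k S).map (altIdeal k d).mkQ := by
    intro v
    refine Submodule.mem_map_of_mem (Submodule.subset_span ⟨w v, ?_, rfl⟩)
    rw [mdeg_rn, hlist]
    exact (Finset.mem_filter.1 v.2).2
  let b : W → (Submodule.span k S).map (altIdeal k d).mkQ := fun v => ⟨_, hmem v⟩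
  let g : (FreeNonUnitalNonAssocAlgebra k (Fin d) ⧸ altIdeal k d) →ₗ[k]
      MonoidAlgebra k (FreeMonoid (Fin d)) :=
    (altIdeal k d).liftQ (PsiL k d) (altIdeal_le k d)
  have hb : LinearIndependent k b := by
    apply LinearIndependent.of_comp (g.comp (Submodule.subtype _))
    have h1 : (g.comp (Submodule.subtype _)) ∘ b = fun v =>
        (MonoidAlgebra.single (FreeMonoid.ofList (List.ofFn v.1)) 1 :
          MonoidAlgebra k (FreeMonoid (Fin d))) := by
      funext v
      change Psi k d (MonoidAlgebra.single (w v) 1) = _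
      rw [Psi_single, wd_rn, hlist]
    rw [h1]
    have h2 : Function.Injective fun v : W => FreeMonoid.ofList (List.ofFn v.1) := by
      intro v v' h
      exact Subtype.ext (List.ofFn_injective (FreeMonoid.ofList.injective h))
    have h3 : LinearIndependent k fun m : FreeMonoid (Fin d) =>
        (MonoidAlgebra.single m 1 : MonoidAlgebra k (FreeMonoid (Fin d))) := by
      have h := (MonoidAlgebra.basis (FreeMonoid (Fin d)) k).linearIndependent
      have h' : (⇑(MonoidAlgebra.basis (FreeMonoid (Fin d)) k)) = fun m : FreeMonoid (Fin d) =>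
          (MonoidAlgebra.single m 1 : MonoidAlgebra k (FreeMonoid (Fin d))) := by
        funext m
        exact MonoidAlgebra.basis_apply ..
      rwa [h'] at h
    exact h3.comp _ h2
  have h4 := hb.fintype_card_le_finrank
  rwa [Fintype.card_coe] at h4

theorem pow_le_sum_chAlt (s : Finset (Fin d)) (N : ℕ) :
    ((s.card ^ (N + 1) : ℕ) : ℤ) ≤ PowerSeries.coeff (N + 1) (tau s (chAlt k d)) := by
  classical
  rw [coeff_tau]
  refine le_trans ?_ (Finset.sum_le_sum fun n _ => card_le_chAlt k N n)
  rw [← Nat.cast_sum, Nat.cast_le]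
  have h1 : s.card ^ (N + 1) = (Fintype.piFinset fun _ : Fin (N + 1) => s).card := by
    rw [Fintype.card_piFinset]
    simp
  rw [h1, Finset.card_eq_sum_card_fiberwise (t := s.finsuppAntidiag (N + 1))
    (f := fun v : Fin (N + 1) → Fin d => ((List.ofFn v).map fun j => Finsupp.single j 1).sum)]
  · refine Finset.sum_le_sum fun n _ => Finset.card_le_card ?_
    intro v hv
    rw [Finset.mem_filter] at hv ⊢
    exact ⟨Finset.mem_univ _, hv.2⟩
  · intro v hv
    rw [Finset.mem_coe, Fintype.mem_piFinset] at hv
    rw [Finset.mem_coe, mem_fa]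
    change (List.map (fun j => Finsupp.single j 1) (List.ofFn v)).sum.degree = N + 1 ∧
      (List.map (fun j => Finsupp.single j 1) (List.ofFn v)).sum.support ⊆ s
    rw [List.map_ofFn, List.sum_ofFn]
    constructor
    · rw [map_sum]
      simp
    · intro j hj
      rw [Finsupp.mem_support_iff] at hj
      by_contra hjs
      apply hj
      rw [Finsupp.finsetSum_apply]
      refine Finset.sum_eq_zero fun i _ => ?_
      rw [Function.comp_apply, Finsupp.single_apply, if_neg]
      rintro rfl
      exact hjs (hv i)

end Pool.Agent.Q114.Sh
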