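import Mathlib
import Pool.Agent.Q114.Sh.Tau
import Pool.Agent.Q114.Sh.Defs

/-!
# The recursion
-/

set_option autoImplicit false

namespace Pool.Agent.Q114.Sh

open Finset

variable {d : ℕ}

theorem ld_lam (s : Finset (Fin d)) (N : ℕ) (α β : (Fin d →₀ ℕ) → ℕ) :
    LD (tau s (lam N α β)) (∑ j ∈ Icc 1 N,
      ((((∑ n ∈ s.finsuppAntidiag j, α n : ℕ) : ℕ) : PowerSeries L) * ∑ i, ser j (ex (wt i)) +
        (((∑ n ∈ s.finsuppAntidiag j, β n : ℕ) : ℕ) : PowerSeries L) * ser j 1)) := by
  unfold lam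
  rw [map_prod]
  apply LD.prod
  intro j hj
  rw [Finset.mem_Icc] at hj
  rw [map_prod]
  have h1 : LD (∏ n ∈ Finset.univ.finsuppAntidiag j, tau s ((∏ i, (1 - MvPowerSeries.monomial n
      (ex (wt i)))) ^ α n * (1 - MvPowerSeries.monomial n 1) ^ β n))
      (∑ n ∈ Finset.univ.finsuppAntidiag j, if n.support ⊆ s then
        ((α n : PowerSeries L) * ∑ i, ser j (ex (wt i)) + (β n : PowerSeries L) * ser j 1)
        else 0) := by
    apply LD.prod
    intro n hn
    rw [mem_fa] at hn
    rw [map_mul, map_pow, map_pow, map_prod, map_sub, map_one, tau_monomial]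
    simp only [map_sub, map_one, tau_monomial]
    by_cases h : n.support ⊆ s
    · simp only [if_pos h, hn.1]
      apply LD.mul
      · apply LD.pow
        apply LD.prod
        intro i _
        exact LD.ser hj.1 _
      · apply LD.pow
        exact LD.ser hj.1 _
    · simp only [if_neg h, sub_zero, Finset.prod_const_one, one_pow, mul_one]
      exact LD.one
  convert h1 using 1
  rw [← Finset.sum_filter, Finset.sum_add_distrib, ← Finset.sum_mul, ← Finset.sum_mul]
  have h2 : (Finset.univ.finsuppAntidiag j).filter (fun n : Fin d →₀ ℕ => n.support ⊆ s) =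
      s.finsuppAntidiag j := by
    ext n
    rw [Finset.mem_filter, mem_fa, mem_fa]
    constructor
    · rintro ⟨h1, h2⟩
      exact ⟨h1.1, h2⟩
    · rintro ⟨h1, h2⟩
      exact ⟨⟨h1, Finset.subset_univ _⟩, h2⟩
  rw [h2]
  push_cast
  rfl

theorem constantCoeff_lam (s : Finset (Fin d)) (N : ℕ) (α β : (Fin d →₀ ℕ) → ℕ) :
    PowerSeries.constantCoeff (tau s (lam N α β)) = 1 := by
  unfold lam
  rw [map_prod, map_prod]
  refine Finset.prod_eq_one fun j hj => ?_
  rw [Finset.mem_Icc] at hj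
  rw [map_prod, map_prod]
  refine Finset.prod_eq_one fun n hn => ?_
  rw [mem_fa] at hn
  rw [map_mul, map_pow, map_pow, map_prod, map_sub, map_one, tau_monomial]
  simp only [map_sub, map_one, tau_monomial]
  by_cases h : n.support ⊆ s
  · simp only [if_pos h, hn.1]
    obtain ⟨k, rfl⟩ : ∃ k, j = k + 1 := ⟨j - 1, by omega⟩
    simp [pow_succ]
  · simp [if_neg h]

/-- the Adams operations on the adjoint character -/
noncomputable def psi (k : ℕ) : L := ∑ i, ex (wt i) ^ k

/-- power sums of `a [L(θ)] + b [L(0)]` -/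
noncomputable def pw (A B : ℕ → ℤ) (j : ℕ) : L :=
  ∑ l ∈ j.divisors, (l : L) * ((A l : L) * psi (j / l) + (B l : L))

theorem rec_phi {a b : MvPowerSeries (Fin d) ℤ} {Φ : MvPowerSeries (Fin d) L}
    (h : IsLam a b Φ) (s : Finset (Fin d)) (m : ℕ) :
    (m : L) * PowerSeries.coeff m (tau s Φ) = - ∑ ij ∈ Finset.HasAntidiagonal.antidiagonal m,
      PowerSeries.coeff ij.1 (tau s Φ) *
        pw (fun j => PowerSeries.coeff j (tau s a)) (fun j => PowerSeries.coeff j (tau s b))
          ij.2 := by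
  have h1 := rec_of_mul (φ := tau s Φ) (N := m)
    (ld_lam s m (fun m => (-MvPowerSeries.coeff m a).toNat)
      (fun m => (-MvPowerSeries.coeff m b).toNat))
    (ld_lam s m (fun m => (MvPowerSeries.coeff m a).toNat)
      (fun m => (MvPowerSeries.coeff m b).toNat))
    (constantCoeff_lam s m _ _) (by
      intro k hk
      rw [← map_mul, coeff_tau, coeff_tau]
      refine Finset.sum_congr rfl fun n hn => ?_
      rw [mem_fa] at hn
      exact h m n (by omega)) le_rfl
  refine h1.trans (congrArg Neg.neg (Finset.sum_congr rfl fun ij hij => ?_))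
  rw [Finset.HasAntidiagonal.mem_antidiagonal] at hij
  refine congrArg (fun x => _ * x) ?_
  rw [← Finset.sum_sub_distrib, map_sum, pw]
  have h2 : ∀ l ∈ Icc 1 m, PowerSeries.coeff ij.2
      ((((∑ n ∈ s.finsuppAntidiag l, (MvPowerSeries.coeff n a).toNat : ℕ) : ℕ) : PowerSeries L) *
        ∑ i, ser l (ex (wt i)) +
        (((∑ n ∈ s.finsuppAntidiag l, (MvPowerSeries.coeff n b).toNat : ℕ) : ℕ) :
          PowerSeries L) * ser l 1 -
      ((((∑ n ∈ s.finsuppAntidiag l, (-MvPowerSeries.coeff n a).toNat : ℕ) : ℕ) : PowerSeries L) *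
        ∑ i, ser l (ex (wt i)) +
        (((∑ n ∈ s.finsuppAntidiag l, (-MvPowerSeries.coeff n b).toNat : ℕ) : ℕ) :
          PowerSeries L) * ser l 1)) =
      if l ∣ ij.2 ∧ ij.2 ≠ 0 then (l : L) * (((PowerSeries.coeff l (tau s a) : ℤ) : L) *
        psi (ij.2 / l) + ((PowerSeries.coeff l (tau s b) : ℤ) : L)) else 0 := by
    intro l hl
    have e1 : ∀ (c : MvPowerSeries (Fin d) ℤ) (f : PowerSeries L),
        PowerSeries.coeff ij.2 ((((∑ n ∈ s.finsuppAntidiag l, (MvPowerSeries.coeff n c).toNat : ℕ) :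
          ℕ) : PowerSeries L) * f) - PowerSeries.coeff ij.2
          ((((∑ n ∈ s.finsuppAntidiag l, (-MvPowerSeries.coeff n c).toNat : ℕ) :
          ℕ) : PowerSeries L) * f) =
        ((PowerSeries.coeff l (tau s c) : ℤ) : L) * PowerSeries.coeff ij.2 f := by
      intro c f
      rw [← nsmul_eq_mul, ← nsmul_eq_mul, map_nsmul, map_nsmul, nsmul_eq_mul, nsmul_eq_mul,
        ← sub_mul, coeff_tau]
      refine congrArg (fun x => x * _) ?_
      push_cast
      rw [← Finset.sum_sub_distrib]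
      refine Finset.sum_congr rfl fun n _ => ?_
      generalize MvPowerSeries.coeff n c = z
      have hz : ((z.toNat : ℕ) : ℤ) - (((-z).toNat : ℕ) : ℤ) = z := by omega
      calc ((z.toNat : ℕ) : L) - (((-z).toNat : ℕ) : L)
          = ((((z.toNat : ℕ) : ℤ) - (((-z).toNat : ℕ) : ℤ) : ℤ) : L) := by push_cast; rfl
        _ = (z : L) := by rw [hz]
    rw [map_sub, map_add, map_add, add_sub_add_comm, e1, e1, map_sum]
    simp only [ser, PowerSeries.coeff_mk, one_pow, mul_one]
    split_ifs with h3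
    · rw [← Finset.mul_sum, psi]
      ring
    · simp
  rw [Finset.sum_congr rfl h2, ← Finset.sum_filter]
  refine Finset.sum_congr ?_ fun _ _ => rfl
  ext l
  rw [Finset.mem_filter, Finset.mem_Icc, Nat.mem_divisors]
  constructor
  · rintro ⟨-, h3⟩
    exact h3
  · rintro ⟨h3, h4⟩
    refine ⟨⟨Nat.pos_of_dvd_of_pos h3 (Nat.pos_of_ne_zero h4), ?_⟩, h3, h4⟩
    have := Nat.le_of_dvd (Nat.pos_of_ne_zero h4) h3
    omega

end Pool.Agent.Q114.Sh
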