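import Mathlib
import Pool.Agent.Q114.Sh.Dat
import Pool.Agent.Q114.Sh.Rec

/-!
# Verification of the tables
-/

set_option autoImplicit false

namespace Pool.Agent.Q114.Sh

/-- nonzero weights -/
def wtl : List (ℤ × ℤ) := [(1, 0), (0, 1), (1, 1), (-1, 0), (0, -1), (-1, -1)]

/-- the divisors of `j` -/
def dvs (j : ℕ) : List ℕ := (List.range (j + 1)).filter fun l => decide (l ≠ 0) && decide (l ∣ j)

/-- the terms of the `j`-th power sum -/
def terms (j : ℕ) : List (ℤ × ℕ × ℕ) := (dvs j).flatMap fun (l : ℕ) =>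
  ((l : ℤ) * (2 * Aval l + Bval l), j, j) ::
    wtl.map fun (w : ℤ × ℤ) => ((l : ℤ) * Aval l, ((j : ℤ) + ((j / l : ℕ) : ℤ) * w.1).toNat,
      ((j : ℤ) + ((j / l : ℕ) : ℤ) * w.2).toNat)

/-- the left side of the recursion -/
def accum (m : ℕ) : List (List ℤ) :=
  (List.range m).foldl (fun acc i => mulTerms (T i) (terms (m - i)) acc)
    (raxpyAt (m : ℤ) 0 0 [] (T m))

/-- entries of the tables -/
def get (m : ℕ) (a b : ℕ) : ℤ := ((T m).getD (a + m) []).getD (b + m) 0

/-- the tables are correct -/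
def check (m : ℕ) : Bool :=
  allZero (accum m) &&
  (get m 0 0 - get m 1 0 - get m 0 1 + get m 2 1 + get m 1 2 - get m 2 2 ==
    if m = 0 then 1 else 0) &&
  (get m 1 1 - get m 2 1 - get m 1 2 + get m 3 2 + get m 2 3 - get m 3 3 ==
    if m = 1 then -3 else 0)

theorem check_all : ∀ m < 11, check m = true := by
  decide +kernel

end Pool.Agent.Q114.Sh
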