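import Mathlib
import Pool.Agent.Q114.Sh.Chk

/-!
# The values satisfy the recursion
-/

set_option autoImplicit false

namespace Pool.Agent.Q114.Sh

/-- the coefficients -/
noncomputable def val (m : ℕ) : L := ex (-(m : ℤ), -(m : ℤ)) * ev2 (ex (0, 1)) (ex (1, 0)) (T m)

theorem evT_append {R : Type*} [CommRing R] (X Y : R) (l l' : List (ℤ × ℕ × ℕ)) :
    evT X Y (l ++ l') = evT X Y l + evT X Y l' := by
  simp [evT]

theorem evT_flatMap {R : Type*} [CommRing R] (X Y : R) (l : List ℕ)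
    (f : ℕ → List (ℤ × ℕ × ℕ)) :
    evT X Y (l.flatMap f) = (l.map fun x => evT X Y (f x)).sum := by
  induction l with
  | nil => simp [evT]
  | cons x l ih => rw [List.flatMap_cons, evT_append, ih, List.map_cons, List.sum_cons]

theorem dvs_sum {R : Type*} [CommRing R] (j : ℕ) (hj : 1 ≤ j) (f : ℕ → R) :
    ((dvs j).map f).sum = ∑ l ∈ j.divisors, f l := by
  have h1 : (dvs j).Nodup := List.Nodup.filter _ List.nodup_range
  rw [← List.sum_toFinset f h1]
  refine Finset.sum_congr ?_ fun _ _ => rfl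
  ext l
  rw [List.mem_toFinset, dvs, List.mem_filter, List.mem_range, Nat.mem_divisors,
    Bool.and_eq_true, decide_eq_true_iff, decide_eq_true_iff]
  constructor
  · rintro ⟨-, -, h⟩
    exact ⟨h, by omega⟩
  · rintro ⟨h, -⟩
    have := Nat.le_of_dvd (by omega) h
    refine ⟨by omega, ?_, h⟩
    rintro rfl
    have := Nat.eq_zero_of_zero_dvd h
    omega

theorem ex_toNat (a b : ℤ) (ha : 0 ≤ a) (hb : 0 ≤ b) :
    ex (0, 1) ^ b.toNat * ex (1, 0) ^ a.toNat = ex (a, b) := by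
  rw [ex_pow, ex_pow, ← ex_add]
  congr 1
  ext
  · simp [ha]
  · simp [hb]

theorem evT_terms (j : ℕ) (hj : 1 ≤ j) :
    evT (ex (0, 1)) (ex (1, 0)) (terms j) = ex ((j : ℤ), (j : ℤ)) * pw Aval Bval j := by
  rw [terms, evT_flatMap, dvs_sum j hj, pw, Finset.mul_sum]
  refine Finset.sum_congr rfl fun l hl => ?_
  rw [Nat.mem_divisors] at hl
  obtain ⟨⟨q, rfl⟩, hj0⟩ := hl
  have hl : 1 ≤ l := by
    rcases Nat.eq_zero_or_pos l with rfl | h
    · simp at hj0
    · exact h
  rw [Nat.mul_div_cancel_left _ (by omega)]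
  have hql : q ≤ l * q := Nat.le_mul_of_pos_left _ hl
  have h1 : ∀ w ∈ wtl, ex (0, 1) ^ (((l * q : ℕ) : ℤ) + ((q : ℕ) : ℤ) * w.2).toNat *
      ex (1, 0) ^ (((l * q : ℕ) : ℤ) + ((q : ℕ) : ℤ) * w.1).toNat =
      ex (((l * q : ℕ) : ℤ), ((l * q : ℕ) : ℤ)) * ex w ^ q := by
    intro w hw
    have h2 : -1 ≤ w.1 ∧ -1 ≤ w.2 := by
      have : ∀ w ∈ wtl, -1 ≤ w.1 ∧ -1 ≤ w.2 := by decide
      exact this w hw
    have h3 : (q : ℤ) ≤ ((l * q : ℕ) : ℤ) := by exact_mod_cast hql
    have h4 : (0 : ℤ) ≤ q := by positivity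
    rw [ex_toNat _ _ (by nlinarith) (by nlinarith), ex_pow, ← ex_add]
    congr 1
  have h0 : ex (0, 1) ^ (l * q) * ex (1, 0) ^ (l * q) =
      ex (((l * q : ℕ) : ℤ), ((l * q : ℕ) : ℤ)) := by
    have := ex_toNat (((l * q : ℕ) : ℤ)) (((l * q : ℕ) : ℤ)) (by positivity) (by positivity)
    rwa [Int.toNat_natCast] at this
  simp only [evT, wtl, List.map_cons, List.map_nil, List.sum_cons, List.sum_nil]
  simp only [wtl, List.mem_cons, List.not_mem_nil, or_false, forall_eq_or_imp, forall_eq] at h1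
  obtain ⟨e1, e2, e3, e4, e5, e6⟩ := h1
  have h5 : psi q = ex (1, 0) ^ q + ex (0, 1) ^ q + ex (1, 1) ^ q + ex (-1, 0) ^ q +
      ex (0, -1) ^ q + ex (-1, -1) ^ q + 2 := by
    have h6 : ex (0, 0) ^ q = 1 := by
      have : ex (0, 0) = 1 := rfl
      rw [this, one_pow]
    simp only [psi, wt, Fin.sum_univ_succ, Fin.sum_univ_zero, Matrix.cons_val_zero,
      Matrix.cons_val_succ, h6]
    ring
  rw [h5, mul_assoc, mul_assoc, mul_assoc, mul_assoc, mul_assoc, mul_assoc, mul_assoc, e1, e2, e3,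
    e4, e5, e6, h0]
  push_cast
  ring

theorem foldl_mulTerms {R : Type*} [CommRing R] (X Y : R) (l : List ℕ)
    (g : ℕ → List (ℤ × ℕ × ℕ)) (acc : List (List ℤ)) :
    ev2 X Y (l.foldl (fun acc i => mulTerms (T i) (g i) acc) acc) =
      ev2 X Y acc + (l.map fun i => evT X Y (g i) * ev2 X Y (T i)).sum := by
  induction l generalizing acc with
  | nil => simp
  | cons x l ih =>
    rw [List.foldl_cons, ih, ev2_mulTerms, List.map_cons, List.sum_cons]
    ring

theorem ex_mul_neg (m : ℕ) : ex ((m : ℤ), (m : ℤ)) * ex (-(m : ℤ), -(m : ℤ)) = 1 := by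
  have : ((m : ℤ), (m : ℤ)) + (-(m : ℤ), -(m : ℤ)) = 0 := by ext <;> simp
  rw [← ex_add, this, ex_zero]

theorem val_rec {m : ℕ} (hm : m < 11) : (m : L) * val m =
    - ∑ ij ∈ Finset.HasAntidiagonal.antidiagonal m, val ij.1 * pw Aval Bval ij.2 := by
  have h := check_all m hm
  rw [check, Bool.and_eq_true, Bool.and_eq_true] at h
  have h1 := ev2_eq_zero (ex (0, 1)) (ex (1, 0)) _ h.1.1
  rw [accum, foldl_mulTerms, ev2_raxpyAt] at h1
  have h2 : ((List.range m).map fun i => evT (ex (0, 1)) (ex (1, 0)) (terms (m - i)) *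
      ev2 (ex (0, 1)) (ex (1, 0)) (T i)).sum =
      ex ((m : ℤ), (m : ℤ)) * ∑ i ∈ Finset.range m, val i * pw Aval Bval (m - i) := by
    rw [← List.sum_toFinset _ List.nodup_range, List.toFinset_range, Finset.mul_sum]
    refine Finset.sum_congr rfl fun i hi => ?_
    rw [Finset.mem_range] at hi
    rw [evT_terms _ (by omega), val]
    have h3 : ex ((m : ℤ), (m : ℤ)) * ex (-(i : ℤ), -(i : ℤ)) =
        ex (((m - i : ℕ) : ℤ), ((m - i : ℕ) : ℤ)) := by
      rw [← ex_add]
      congr 1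
      ext
      · simp
        omega
      · simp
        omega
    rw [← h3]
    ring
  rw [h2] at h1
  have h4 : ex ((m : ℤ), (m : ℤ)) * ((m : L) * val m +
      ∑ i ∈ Finset.range m, val i * pw Aval Bval (m - i)) = 0 := by
    rw [← h1, val]
    have := ex_mul_neg m
    simp only [ev2]
    push_cast
    linear_combination (m : L) * ev2 (ex (0, 1)) (ex (1, 0)) (T m) * this
  have h5 : (m : L) * val m + ∑ i ∈ Finset.range m, val i * pw Aval Bval (m - i) = 0 := by
    have h6 := congrArg (fun x => ex (-(m : ℤ), -(m : ℤ)) * x) h4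
    have h7 := ex_mul_neg m
    linear_combination h6 - ((m : L) * val m +
      ∑ i ∈ Finset.range m, val i * pw Aval Bval (m - i)) * h7
  rw [Finset.Nat.sum_antidiagonal_eq_sum_range_succ_mk, Finset.sum_range_succ]
  have h7 : pw Aval Bval (m - m) = 0 := by
    rw [Nat.sub_self, pw, Nat.divisors_zero, Finset.sum_empty]
  simp only [h7, mul_zero, add_zero]
  linear_combination h5

end Pool.Agent.Q114.Sh
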