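import Mathlib
import Pool.Agent.Q114.Sh.Val

/-!
# Multiplicities and the induction
-/

set_option autoImplicit false

namespace Pool.Agent.Q114.Sh

theorem mult_formula (μ : ℤ × ℤ) (f : L) : mult μ f = f.coeff μ - f.coeff (μ - (-1, 0)) -
    f.coeff (μ - (0, -1)) + f.coeff (μ - (-2, -1)) + f.coeff (μ - (-1, -2)) -
    f.coeff (μ - (-2, -2)) := by
  have h : f * ((1 - ex (-1, 0)) * (1 - ex (0, -1)) * (1 - ex (-1, -1))) =
      f - ex (-1, 0) * f - ex (0, -1) * f + ex (-2, -1) * f + ex (-1, -2) * f -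
        ex (-2, -2) * f := by
    have e1 : ex (-1, -1) = ex (-1, 0) * ex (0, -1) := by rw [← ex_add]; rfl
    have e2 : ex (-2, -1) = ex (-1, 0) * ex (-1, 0) * ex (0, -1) := by
      rw [← ex_add, ← ex_add]; rfl
    have e3 : ex (-1, -2) = ex (-1, 0) * ex (0, -1) * ex (0, -1) := by
      rw [← ex_add, ← ex_add]; rfl
    have e4 : ex (-2, -2) = ex (-1, 0) * ex (-1, 0) * ex (0, -1) * ex (0, -1) := by
      rw [← ex_add, ← ex_add, ← ex_add]; rfl
    rw [e1, e2, e3, e4]
    ring
  rw [mult, h]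
  simp only [AddMonoidAlgebra.coeff_add, AddMonoidAlgebra.coeff_sub, Finsupp.add_apply,
    Finsupp.sub_apply, coeff_ex_mul]

theorem mult_add (μ : ℤ × ℤ) (f g : L) : mult μ (f + g) = mult μ f + mult μ g := by
  unfold mult
  rw [add_mul, AddMonoidAlgebra.coeff_add, Finsupp.add_apply]

theorem mult_neg (μ : ℤ × ℤ) (f : L) : mult μ (-f) = -mult μ f := by
  unfold mult
  rw [neg_mul, AddMonoidAlgebra.coeff_neg, Finsupp.neg_apply]

theorem mult_zero (μ : ℤ × ℤ) : mult μ 0 = 0 := by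
  unfold mult
  rw [zero_mul, AddMonoidAlgebra.coeff_zero, Finsupp.zero_apply]

theorem coeff_intCast_mul (c : ℤ) (f : L) (μ : ℤ × ℤ) : ((c : L) * f).coeff μ = c * f.coeff μ := by
  rw [← zsmul_eq_mul, AddMonoidAlgebra.coeff_smul, Finsupp.smul_apply, smul_eq_mul]

theorem mult_intCast_mul (μ : ℤ × ℤ) (c : ℤ) (f : L) : mult μ ((c : L) * f) = c * mult μ f := by
  unfold mult
  rw [mul_assoc, coeff_intCast_mul]

theorem mult_sum {ι : Type*} (F : Finset ι) (μ : ℤ × ℤ) (f : ι → L) :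
    mult μ (∑ i ∈ F, f i) = ∑ i ∈ F, mult μ (f i) := by
  classical
  induction F using Finset.induction_on with
  | empty => simp [mult_zero]
  | insert i F hi ih => rw [Finset.sum_insert hi, Finset.sum_insert hi, mult_add, ih]

theorem coeff_ex (ν μ : ℤ × ℤ) : (ex ν).coeff μ = if μ = ν then 1 else 0 := by
  rw [ex, AddMonoidAlgebra.coeff_single, Finsupp.single_apply]
  simp only [eq_comm]

theorem mult_one (μ : ℤ × ℤ) : mult μ 1 = (if μ = 0 then 1 else 0) -
    (if μ - (-1, 0) = 0 then 1 else 0) - (if μ - (0, -1) = 0 then 1 else 0) +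
    (if μ - (-2, -1) = 0 then 1 else 0) + (if μ - (-1, -2) = 0 then 1 else 0) -
    (if μ - (-2, -2) = 0 then 1 else 0) := by
  rw [mult_formula, ← ex_zero]
  simp only [coeff_ex]

theorem mult_one_zero : mult (0, 0) 1 = 1 := by
  rw [mult_one]
  decide

theorem mult_one_adj : mult (1, 1) 1 = 0 := by
  rw [mult_one]
  decide

theorem psi_one : psi 1 = ex (1, 0) + ex (0, 1) + ex (1, 1) + ex (-1, 0) +
      ex (0, -1) + ex (-1, -1) + ex (0, 0) + ex (0, 0) := by
  simp only [psi, wt, Fin.sum_univ_succ, Fin.sum_univ_zero, Matrix.cons_val_zero,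
    Matrix.cons_val_succ, pow_one]
  ring

theorem mult_psi_zero : mult (0, 0) (psi 1) = 0 := by
  rw [psi_one]
  simp only [mult_add]
  simp only [mult_formula, coeff_ex]
  decide

theorem mult_psi_adj : mult (1, 1) (psi 1) = 1 := by
  rw [psi_one]
  simp only [mult_add]
  simp only [mult_formula, coeff_ex]
  decide

theorem coeff_val (m a b : ℕ) : (val m).coeff ((a : ℤ), (b : ℤ)) = get m a b := by
  rw [val, coeff_ex_mul, Prod.mk_sub_mk, coeff_ev2, if_pos (by omega), get]
  congr 2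
  · omega
  · omega

theorem mult_val_zero {m : ℕ} (hm : m < 11) : mult (0, 0) (val m) = if m = 0 then 1 else 0 := by
  have h := check_all m hm
  rw [check, Bool.and_eq_true, Bool.and_eq_true, beq_iff_eq, beq_iff_eq] at h
  rw [← h.1.2, mult_formula]
  simp only [← coeff_val]
  norm_num

theorem mult_val_adj {m : ℕ} (hm : m < 11) : mult (1, 1) (val m) = if m = 1 then -3 else 0 := by
  have h := check_all m hm
  rw [check, Bool.and_eq_true, Bool.and_eq_true, beq_iff_eq, beq_iff_eq] at h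
  rw [← h.2, mult_formula]
  simp only [← coeff_val]
  norm_num

theorem val_zero : val 0 = 1 := by
  have : val 0 = ex (-((0 : ℕ) : ℤ), -((0 : ℕ) : ℤ)) * ev2 (ex (0, 1)) (ex (1, 0)) [[1]] := rfl
  rw [this]
  have h0 : ex (-((0 : ℕ) : ℤ), -((0 : ℕ) : ℤ)) = 1 := rfl
  rw [h0]
  simp [ev2, ev]

theorem eq_zero_of_natCast_mul {m : ℕ} (hm : 1 ≤ m) {f : L} (h : (m : L) * f = 0) : f = 0 := by
  ext μ
  have h1 : (((m : ℤ) : L) * f).coeff μ = 0 := by
    push_cast
    rw [h]
    rfl
  rw [coeff_intCast_mul] at h1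
  rw [AddMonoidAlgebra.coeff_zero, Finsupp.zero_apply]
  rcases mul_eq_zero.1 h1 with h2 | h2
  · omega
  · exact h2

theorem pw_congr {A B A' B' : ℕ → ℤ} {j : ℕ} (hA : ∀ l, 1 ≤ l → l ≤ j → A l = A' l ∧ B l = B' l) :
    pw A B j = pw A' B' j := by
  refine Finset.sum_congr rfl fun l hl => ?_
  rw [Nat.mem_divisors] at hl
  have h1 := hA l (Nat.pos_of_dvd_of_pos hl.1 (Nat.pos_of_ne_zero hl.2))
    (Nat.le_of_dvd (Nat.pos_of_ne_zero hl.2) hl.1)
  rw [h1.1, h1.2]

theorem pw_sub {A B A' B' : ℕ → ℤ} {j : ℕ} (hj : 1 ≤ j)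
    (hA : ∀ l, 1 ≤ l → l < j → A l = A' l ∧ B l = B' l) :
    pw A B j - pw A' B' j = (j : L) * (((A j - A' j : ℤ) : L) * psi 1 + ((B j - B' j : ℤ) : L)) := by
  unfold pw
  rw [← Nat.insert_self_properDivisors (by omega : j ≠ 0),
    Finset.sum_insert Nat.self_notMem_properDivisors,
    Finset.sum_insert Nat.self_notMem_properDivisors, Nat.div_self (by omega)]
  have : ∑ l ∈ j.properDivisors, (l : L) * ((A l : L) * psi (j / l) + (B l : L)) =
      ∑ l ∈ j.properDivisors, (l : L) * ((A' l : L) * psi (j / l) + (B' l : L)) := by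
    refine Finset.sum_congr rfl fun l hl => ?_
    rw [Nat.mem_properDivisors] at hl
    have h1 := hA l (Nat.pos_of_dvd_of_pos hl.1 (by omega)) hl.2
    rw [h1.1, h1.2]
  rw [this]
  push_cast
  ring

/-- The recursion determines the values. -/
theorem determined {φ : ℕ → L} {A B : ℕ → ℤ} (h0 : φ 0 = 1)
    (hrec : ∀ m : ℕ, (m : L) * φ m =
      - ∑ ij ∈ Finset.HasAntidiagonal.antidiagonal m, φ ij.1 * pw A B ij.2)
    (hz : ∀ m, 1 ≤ m → mult (0, 0) (φ m) = 0)
    (ha : ∀ m, 1 ≤ m → mult (1, 1) (φ m) = if m = 1 then -3 else 0) (m : ℕ) (hm : m < 11) :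
    φ m = val m ∧ (1 ≤ m → A m = Aval m ∧ B m = Bval m) := by
  induction m using Nat.strong_induction_on with
  | _ m ih =>
  rcases Nat.eq_zero_or_pos m with rfl | hpos
  · exact ⟨by rw [h0, val_zero], fun h => by omega⟩
  have e1 : (m : L) * (φ m - val m) = -(pw A B m - pw Aval Bval m) := by
    rw [mul_sub, hrec m, val_rec hm, Finset.Nat.sum_antidiagonal_eq_sum_range_succ_mk,
      Finset.Nat.sum_antidiagonal_eq_sum_range_succ_mk]
    have h1 : ∀ (A B : ℕ → ℤ), pw A B (m - m) = 0 := by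
      intro A B
      rw [Nat.sub_self, pw, Nat.divisors_zero, Finset.sum_empty]
    obtain ⟨k, rfl⟩ : ∃ k, m = k + 1 := ⟨m - 1, by omega⟩
    have split : ∀ f : ℕ → L, ∑ i ∈ Finset.range (k + 1 + 1), f i =
        ∑ i ∈ Finset.range k, f (i + 1) + f 0 + f (k + 1) := by
      intro f
      rw [Finset.sum_range_succ, Finset.sum_range_succ']
    rw [split, split]
    simp only [h1, mul_zero, add_zero, h0, val_zero, one_mul, Nat.sub_zero]
    have h2 : ∑ i ∈ Finset.range k, φ (i + 1) * pw A B (k + 1 - (i + 1)) =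
        ∑ i ∈ Finset.range k, val (i + 1) * pw Aval Bval (k + 1 - (i + 1)) := by
      refine Finset.sum_congr rfl fun i hi => ?_
      rw [Finset.mem_range] at hi
      rw [(ih (i + 1) (by omega) (by omega)).1]
      congr 1
      apply pw_congr
      intro l hl hl'
      exact (ih l (by omega) (by omega)).2 hl
    rw [h2]
    ring
  have e2 : pw A B m - pw Aval Bval m =
      (m : L) * (((A m - Aval m : ℤ) : L) * psi 1 + ((B m - Bval m : ℤ) : L)) :=
    pw_sub hpos fun l hl hl' => (ih l hl' (by omega)).2 hl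
  have e3 : ∀ μ, (m : ℤ) * (mult μ (φ m) - mult μ (val m)) =
      -((m : ℤ) * ((A m - Aval m) * mult μ (psi 1) + (B m - Bval m) * mult μ 1)) := by
    intro μ
    have h1 := congrArg (mult μ) (e1.trans (congrArg Neg.neg e2))
    have c1 : (m : L) = (((m : ℤ)) : L) := by push_cast; rfl
    have c2 : (((B m - Bval m : ℤ)) : L) = (((B m - Bval m : ℤ)) : L) * 1 := by rw [mul_one]
    rw [c1, mult_neg, mult_intCast_mul, mult_intCast_mul, mult_add, mult_intCast_mul, c2,
      mult_intCast_mul, sub_eq_add_neg (φ m), mult_add, mult_neg] at h1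
    linarith
  have hm0 : (m : ℤ) ≠ 0 := by exact_mod_cast (by omega : m ≠ 0)
  have f1 := e3 (0, 0)
  rw [hz m hpos, mult_val_zero hm, if_neg (by omega), mult_psi_zero, mult_one_zero] at f1
  have f2 := e3 (1, 1)
  rw [ha m hpos, mult_val_adj hm, mult_psi_adj, mult_one_adj] at f2
  have g1 : B m = Bval m := by
    have : (m : ℤ) * (B m - Bval m) = 0 := by linarith
    rcases mul_eq_zero.1 this with h | h
    · exact absurd h hm0
    · linarith
  have g2 : A m = Aval m := by
    have : (m : ℤ) * (A m - Aval m) = 0 := by linarith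
    rcases mul_eq_zero.1 this with h | h
    · exact absurd h hm0
    · linarith
  refine ⟨?_, fun _ => ⟨g2, g1⟩⟩
  rw [e2, g1, g2, sub_self, sub_self, Int.cast_zero, zero_mul, add_zero, mul_zero, neg_zero] at e1
  exact sub_eq_zero.1 (eq_zero_of_natCast_mul hpos e1)

end Pool.Agent.Q114.Sh
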