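import Mathlib
import Pool.Agent.Q114.Sh.Mul

/-!
# Existence and uniqueness of the pair
-/

set_option autoImplicit false

namespace Pool.Agent.Q114.Sh

open MvPowerSeries

variable {d : ℕ}

/-- The power series of order at least `m`. -/
def J (d m : ℕ) : Ideal (MvPowerSeries (Fin d) L) where
  carrier := {f | ∀ n : Fin d →₀ ℕ, n.degree < m → coeff n f = 0}
  add_mem' := by
    intro f g hf hg n hn
    rw [map_add, hf n hn, hg n hn, add_zero]
  zero_mem' := by
    intro n _
    exact map_zero _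
  smul_mem' := by
    intro c f hf n hn
    rw [smul_eq_mul, coeff_mul]
    refine Finset.sum_eq_zero fun ij hij => ?_
    rw [Finset.HasAntidiagonal.mem_antidiagonal] at hij
    rw [hf ij.2, mul_zero]
    have : n.degree = ij.1.degree + ij.2.degree := by rw [← hij, map_add]
    omega

theorem mem_J {m : ℕ} {f : MvPowerSeries (Fin d) L} :
    f ∈ J d m ↔ ∀ n : Fin d →₀ ℕ, n.degree < m → coeff n f = 0 := Iff.rfl

theorem J_mono {m m' : ℕ} (h : m ≤ m') {f : MvPowerSeries (Fin d) L} (hf : f ∈ J d m') :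
    f ∈ J d m := fun n hn => hf n (by omega)

theorem mul_mem_J {m m' : ℕ} {f g : MvPowerSeries (Fin d) L} (hf : f ∈ J d m) (hg : g ∈ J d m') :
    f * g ∈ J d (m + m') := by
  intro n hn
  rw [coeff_mul]
  refine Finset.sum_eq_zero fun ij hij => ?_
  rw [Finset.HasAntidiagonal.mem_antidiagonal] at hij
  have h1 : n.degree = ij.1.degree + ij.2.degree := by rw [← hij, map_add]
  by_cases h : ij.1.degree < m
  · rw [hf _ h, zero_mul]
  · rw [hg _ (by omega), mul_zero]

theorem lin_mul {m : ℕ} (hm : 1 ≤ m) {f g u v : MvPowerSeries (Fin d) L} (hu : u ∈ J d m)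
    (hv : v ∈ J d m) (hf : f - (1 + u) ∈ J d (m + 1)) (hg : g - (1 + v) ∈ J d (m + 1)) :
    f * g - (1 + (u + v)) ∈ J d (m + 1) := by
  have e : f * g - (1 + (u + v)) = g * (f - (1 + u)) + (1 + u) * (g - (1 + v)) + u * v := by ring
  rw [e]
  refine Ideal.add_mem _ (Ideal.add_mem _ (Ideal.mul_mem_left _ _ hf) (Ideal.mul_mem_left _ _ hg))
    (J_mono (by omega : m + 1 ≤ m + m) (mul_mem_J hu hv))

theorem lin_pow {m : ℕ} (hm : 1 ≤ m) {f u : MvPowerSeries (Fin d) L} (hu : u ∈ J d m)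
    (hf : f - (1 + u) ∈ J d (m + 1)) (k : ℕ) :
    f ^ k - (1 + (k : MvPowerSeries (Fin d) L) * u) ∈ J d (m + 1) := by
  induction k with
  | zero => simp
  | succ k ih =>
    have := lin_mul hm (Ideal.mul_mem_left _ _ hu) hu ih hf
    rw [pow_succ]
    convert this using 1
    push_cast
    ring

theorem lin_prod {m : ℕ} (hm : 1 ≤ m) {ι : Type*} (F : Finset ι)
    (f u : ι → MvPowerSeries (Fin d) L) (hu : ∀ i ∈ F, u i ∈ J d m)
    (hf : ∀ i ∈ F, f i - (1 + u i) ∈ J d (m + 1)) :
    ∏ i ∈ F, f i - (1 + ∑ i ∈ F, u i) ∈ J d (m + 1) := by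
  classical
  induction F using Finset.induction_on with
  | empty => simp
  | insert i F hi ih =>
    rw [Finset.prod_insert hi, Finset.sum_insert hi]
    refine lin_mul hm (hu i (Finset.mem_insert_self _ _))
      (Ideal.sum_mem _ fun j hj => hu j (Finset.mem_insert_of_mem hj))
      (hf i (Finset.mem_insert_self _ _))
      (ih (fun j hj => hu j (Finset.mem_insert_of_mem hj))
        fun j hj => hf j (Finset.mem_insert_of_mem hj))

theorem monomial_mem_J (n : Fin d →₀ ℕ) (c : L) : monomial n c ∈ J d n.degree := by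
  intro n' hn
  rw [coeff_monomial, if_neg]
  rintro rfl
  omega

/-- the factors of degree `m` -/
noncomputable def lv (m : ℕ) (α β : (Fin d →₀ ℕ) → ℕ) : MvPowerSeries (Fin d) L :=
  ∏ n ∈ Finset.univ.finsuppAntidiag m,
    ((∏ i, (1 - monomial n (ex (wt i)))) ^ α n * (1 - monomial n 1) ^ β n)

theorem lam_succ (N : ℕ) (α β : (Fin d →₀ ℕ) → ℕ) :
    lam (N + 1) α β = lam N α β * lv (N + 1) α β := by
  rw [lam, Finset.prod_Icc_succ_top (by omega)]
  rfl

/-- the linear part of the factors of degree `m` -/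
noncomputable def ll (m : ℕ) (α β : (Fin d →₀ ℕ) → ℕ) : MvPowerSeries (Fin d) L :=
  ∑ n ∈ Finset.univ.finsuppAntidiag m, monomial n (-((α n : L) * psi 1 + (β n : L)))

theorem ll_mem (m : ℕ) (α β : (Fin d →₀ ℕ) → ℕ) : ll m α β ∈ J d m := by
  refine Ideal.sum_mem _ fun n hn => ?_
  rw [mem_fa] at hn
  rw [← hn.1]
  exact monomial_mem_J _ _

theorem lv_lin {m : ℕ} (hm : 1 ≤ m) (α β : (Fin d →₀ ℕ) → ℕ) :
    lv m α β - (1 + ll m α β) ∈ J d (m + 1) := by
  apply lin_prod hm
  · intro n hn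
    rw [mem_fa] at hn
    rw [← hn.1]
    exact monomial_mem_J _ _
  · intro n hn
    rw [mem_fa] at hn
    have h1 : ∀ c : L, (1 - monomial n c) - (1 + -monomial n c) ∈ J d (m + 1) := by
      intro c
      rw [sub_eq_add_neg 1, sub_self]
      exact Ideal.zero_mem _
    have h2 : ∀ c : L, -monomial n c ∈ J d m := by
      intro c
      rw [← hn.1]
      exact (J d n.degree).neg_mem (monomial_mem_J n c)
    have h3 := lin_pow hm (Ideal.sum_mem _ fun i (_ : i ∈ Finset.univ) => h2 (ex (wt i)))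
      (lin_prod hm Finset.univ (fun i => 1 - monomial n (ex (wt i)))
        (fun i => -monomial n (ex (wt i))) (fun i _ => h2 _) fun i _ => h1 _) (α n)
    have h4 := lin_pow hm (h2 1) (h1 1) (β n)
    have h5 := lin_mul hm (Ideal.mul_mem_left _ _
      (Ideal.sum_mem _ fun i (_ : i ∈ Finset.univ) => h2 (ex (wt i))))
      (Ideal.mul_mem_left _ _ (h2 1)) h3 h4
    convert h5 using 3
    rw [← nsmul_eq_mul, ← nsmul_eq_mul, ← nsmul_eq_mul, Finset.sum_neg_distrib, ← map_sum,
      ← nsmul_one (β n), smul_neg, smul_neg, ← map_nsmul, ← map_nsmul, ← map_neg, ← map_neg,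
      ← map_add]
    simp only [psi, pow_one]
    congr 1
    ring

theorem coeff_ll {m : ℕ} (α β : (Fin d →₀ ℕ) → ℕ) {n : Fin d →₀ ℕ} (hn : n.degree = m) :
    coeff n (ll m α β) = -((α n : L) * psi 1 + (β n : L)) := by
  classical
  rw [ll, map_sum, Finset.sum_eq_single n]
  · rw [coeff_monomial, if_pos rfl]
  · intro n' _ h
    rw [coeff_monomial, if_neg (Ne.symm h)]
  · intro h
    exact absurd (mem_fa.2 ⟨hn, Finset.subset_univ _⟩) h

end Pool.Agent.Q114.Sh
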