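import Mathlib
import Pool.Agent.Q114.Sh.Mul
import Pool.Agent.Q114.Sh.Alt

/-!
# The free alternative algebra does not have the predicted character
-/

set_option autoImplicit false

universe u

namespace Pool.Agent.Q114.Sh

variable {d : ℕ}

theorem card_fa_one (s : Finset (Fin d)) : (s.finsuppAntidiag 1).card = s.card := by
  classical
  have h : s.finsuppAntidiag 1 = s.image fun i => Finsupp.single i 1 := by
    ext n
    rw [mem_fa, Finset.mem_image]
    constructor
    · rintro ⟨h1, h2⟩
      obtain ⟨i, rfl⟩ := (Finsupp.sum_eq_one_iff n).1 h1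
      refine ⟨i, h2 ?_, rfl⟩
      rw [Finsupp.mem_support_iff, Finsupp.single_eq_same]
      exact one_ne_zero
    · rintro ⟨i, hi, rfl⟩
      refine ⟨Finsupp.degree_single _ _, ?_⟩
      refine Finsupp.support_single_subset.trans ?_
      rwa [Finset.singleton_subset_iff]
  rw [h, Finset.card_image_of_injective]
  intro i j hij
  exact Finsupp.single_left_injective one_ne_zero hij

theorem coeff_zero_of_isLam {a b : MvPowerSeries (Fin d) ℤ} {Φ : MvPowerSeries (Fin d) L}
    (h : IsLam a b Φ) : MvPowerSeries.coeff 0 Φ = 1 := by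
  have h1 := h 0 0 (by simp)
  have h2 : ∀ α β : (Fin d →₀ ℕ) → ℕ, lam (d := d) 0 α β = 1 := by
    intro α β
    rw [lam, Finset.Icc_eq_empty (by norm_num), Finset.prod_empty]
  rw [h2, h2, mul_one] at h1
  rw [h1, MvPowerSeries.coeff_zero_one]

/-- The values of `a` in three of the variables. -/
theorem coeff_tau_eq {a b : MvPowerSeries (Fin d) ℤ} (h : IsPair a b) {s : Finset (Fin d)}
    (hs : s.card = 3) {m : ℕ} (hm : m < 11) (hm1 : 1 ≤ m) :
    PowerSeries.coeff m (tau s a) = Aval m ∧ PowerSeries.coeff m (tau s b) = Bval m := by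
  obtain ⟨-, -, Φ, hΦ, h0, h1⟩ := h
  refine (determined (φ := fun m => PowerSeries.coeff m (tau s Φ)) ?_ (rec_phi hΦ s) ?_ ?_ m
    hm).2 hm1
  · rw [coeff_tau, Finset.finsuppAntidiag_zero, Finset.sum_singleton]
    exact coeff_zero_of_isLam hΦ
  · intro m hm
    rw [coeff_tau, mult_sum]
    refine Finset.sum_eq_zero fun n hn => ?_
    rw [mem_fa] at hn
    rw [h0, if_neg]
    rintro rfl
    have := hn.1
    simp at this
    omega
  · intro m hm
    rw [coeff_tau, mult_sum]
    have h2 : ∀ n ∈ s.finsuppAntidiag m, mult (1, 1) (MvPowerSeries.coeff n Φ) =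
        if m = 1 then -1 else 0 := by
      intro n hn
      rw [mem_fa] at hn
      rw [h1, hn.1]
    rw [Finset.sum_congr rfl h2, Finset.sum_const]
    split_ifs with h3
    · subst h3
      rw [card_fa_one, hs]
      rfl
    · simp

theorem ne_chAlt (hd : 3 ≤ d) (k : Type u) [Field k] {a b : MvPowerSeries (Fin d) ℤ}
    (h : IsPair a b) : a ≠ chAlt k d := by
  rintro rfl
  obtain ⟨s, -, hs⟩ := Finset.exists_subset_card_eq
    (show 3 ≤ (Finset.univ : Finset (Fin d)).card by rw [Finset.card_univ, Fintype.card_fin]; exact hd)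
  have h1 := (coeff_tau_eq h hs (m := 10) (by norm_num) (by norm_num)).1
  have h2 := pow_le_sum_chAlt k s 9
  rw [h1, hs] at h2
  revert h2
  decide

end Pool.Agent.Q114.Sh
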