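import Mathlib
import Pool.Agent.Q114.Sh.Ext
import Pool.Agent.Q114.Sh.Main

/-!
# Existence and uniqueness of the pair, continued
-/

set_option autoImplicit false

namespace Pool.Agent.Q114.Sh

open MvPowerSeries

variable {d : ℕ}

theorem constCoeff_lam (N : ℕ) (α β : (Fin d →₀ ℕ) → ℕ) :
    constantCoeff (lam N α β) = 1 := by
  unfold lam
  rw [map_prod]
  refine Finset.prod_eq_one fun j hj => ?_
  rw [Finset.mem_Icc] at hj
  rw [map_prod]
  refine Finset.prod_eq_one fun n hn => ?_
  rw [mem_fa] at hn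
  have h0 : n ≠ 0 := by
    rintro rfl
    have := hn.1
    simp at this
    omega
  have h1 : ∀ c : L, constantCoeff (1 - monomial n c) = 1 := by
    intro c
    classical
    rw [map_sub, map_one, ← coeff_zero_eq_constantCoeff_apply, coeff_monomial,
      if_neg (Ne.symm h0), sub_zero]
  rw [map_mul, map_pow, map_pow, map_prod, h1]
  simp [h1]

theorem isUnit_lam (N : ℕ) (α β : (Fin d →₀ ℕ) → ℕ) : IsUnit (lam N α β) := by
  rw [isUnit_iff_constantCoeff, constCoeff_lam]
  exact isUnit_one

/-- the finite quotient -/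
noncomputable def quo (N : ℕ) (a b : MvPowerSeries (Fin d) ℤ) : MvPowerSeries (Fin d) L :=
  lam N (fun m => (coeff m a).toNat) (fun m => (coeff m b).toNat) *
    Ring.inverse (lam N (fun m => (-coeff m a).toNat) (fun m => (-coeff m b).toNat))

theorem quo_mul (N : ℕ) (a b : MvPowerSeries (Fin d) ℤ) :
    quo N a b * lam N (fun m => (-coeff m a).toNat) (fun m => (-coeff m b).toNat) =
      lam N (fun m => (coeff m a).toNat) (fun m => (coeff m b).toNat) := by
  rw [quo, mul_assoc, Ring.inverse_mul_cancel _ (isUnit_lam _ _ _), mul_one]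

theorem constCoeff_quo (N : ℕ) (a b : MvPowerSeries (Fin d) ℤ) :
    constantCoeff (quo N a b) = 1 := by
  have h := congrArg constantCoeff (quo_mul N a b)
  rwa [map_mul, constCoeff_lam, constCoeff_lam, mul_one] at h

theorem quo_sub_one (N : ℕ) (a b : MvPowerSeries (Fin d) ℤ) : quo N a b - 1 ∈ J d 1 := by
  intro n hn
  have : n = 0 := by
    rw [← Finsupp.degree_eq_zero_iff]
    omega
  subst this
  rw [map_sub, coeff_zero_eq_constantCoeff_apply, constCoeff_quo, coeff_zero_one, sub_self]

/-- Characterisation of `λ` by the finite quotients. -/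
theorem isLam_iff (a b : MvPowerSeries (Fin d) ℤ) (Φ : MvPowerSeries (Fin d) L) :
    IsLam a b Φ ↔ ∀ N, Φ - quo N a b ∈ J d (N + 1) := by
  constructor
  · intro h N
    have h1 : (Φ - quo N a b) * lam N (fun m => (-coeff m a).toNat) (fun m => (-coeff m b).toNat)
        ∈ J d (N + 1) := by
      rw [sub_mul, quo_mul]
      intro n hn
      rw [map_sub, h N n (by omega), sub_self]
    exact (Ideal.mul_unit_mem_iff_mem _ (isUnit_lam N _ _)).1 h1
  · intro h N n hn
    have h1 := Ideal.mul_mem_right (lam N (fun m => (-coeff m a).toNat)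
      (fun m => (-coeff m b).toNat)) _ (h N)
    rw [sub_mul, quo_mul] at h1
    have h2 := h1 n (by omega)
    rw [map_sub] at h2
    exact sub_eq_zero.1 h2

theorem quo_succ (N : ℕ) (a b : MvPowerSeries (Fin d) ℤ) :
    quo (N + 1) a b * lv (N + 1) (fun m => (-coeff m a).toNat) (fun m => (-coeff m b).toNat) =
      quo N a b * lv (N + 1) (fun m => (coeff m a).toNat) (fun m => (coeff m b).toNat) := by
  have h1 := quo_mul (N + 1) a b
  have h2 := quo_mul N a b
  rw [lam_succ, lam_succ, ← h2] at h1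
  have h3 := isUnit_lam N (fun m => (-coeff m a).toNat) (fun m => (-coeff m b).toNat) (d := d)
  apply h3.mul_right_cancel
  linear_combination h1

theorem quo_step (N : ℕ) (a b : MvPowerSeries (Fin d) ℤ) :
    quo (N + 1) a b - quo N a b -
      (ll (N + 1) (fun m => (coeff m a).toNat) (fun m => (coeff m b).toNat) -
        ll (N + 1) (fun m => (-coeff m a).toNat) (fun m => (-coeff m b).toNat)) ∈
      J d (N + 1 + 1) := by
  set q' := quo (N + 1) a b
  set q := quo N a b
  set Vp := lv (N + 1) (fun m => (coeff m a).toNat) (fun m => (coeff m b).toNat) with hVp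
  set Vm := lv (N + 1) (fun m => (-coeff m a).toNat) (fun m => (-coeff m b).toNat) with hVm
  set up := ll (N + 1) (fun m => (coeff m a).toNat) (fun m => (coeff m b).toNat) with hup
  set um := ll (N + 1) (fun m => (-coeff m a).toNat) (fun m => (-coeff m b).toNat) with hum
  have h1 : q' * Vm = q * Vp := quo_succ N a b
  have h2 : Vp - (1 + up) ∈ J d (N + 1 + 1) := lv_lin (by omega) _ _
  have h3 : Vm - (1 + um) ∈ J d (N + 1 + 1) := lv_lin (by omega) _ _
  have h4 : (q - 1) * up ∈ J d (N + 1 + 1) :=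
    J_mono (by omega) (mul_mem_J (quo_sub_one N a b) (ll_mem _ _ _))
  have h5 : (q' - 1) * um ∈ J d (N + 1 + 1) :=
    J_mono (by omega) (mul_mem_J (quo_sub_one (N + 1) a b) (ll_mem _ _ _))
  have e : q' - q - (up - um) = q * (Vp - (1 + up)) - q' * (Vm - (1 + um)) +
      ((q - 1) * up - (q' - 1) * um) := by linear_combination h1
  rw [e]
  exact Ideal.add_mem _ (Ideal.sub_mem _ (Ideal.mul_mem_left _ _ h2) (Ideal.mul_mem_left _ _ h3))
    (Ideal.sub_mem _ h4 h5)

theorem coeff_quo_succ_lt {N : ℕ} (a b : MvPowerSeries (Fin d) ℤ) {n : Fin d →₀ ℕ}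
    (hn : n.degree ≤ N) : coeff n (quo (N + 1) a b) = coeff n (quo N a b) := by
  have h1 : quo (N + 1) a b - quo N a b ∈ J d (N + 1) := by
    have h2 := J_mono (by omega : N + 1 ≤ N + 1 + 1) (quo_step N a b)
    have h3 := Ideal.sub_mem _ (ll_mem (d := d) (N + 1) (fun m => (coeff m a).toNat)
      (fun m => (coeff m b).toNat)) (ll_mem (N + 1) (fun m => (-coeff m a).toNat)
        (fun m => (-coeff m b).toNat))
    have h4 := Ideal.add_mem _ h2 h3
    rwa [sub_add_cancel] at h4
  have h2 := h1 n (by omega)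
  rw [map_sub] at h2
  exact sub_eq_zero.1 h2

theorem coeff_quo_succ_eq {N : ℕ} (a b : MvPowerSeries (Fin d) ℤ) {n : Fin d →₀ ℕ}
    (hn : n.degree = N + 1) : coeff n (quo (N + 1) a b) = coeff n (quo N a b) -
      (((coeff n a : ℤ) : L) * psi 1 + ((coeff n b : ℤ) : L)) := by
  have h1 := quo_step N a b n (by omega)
  rw [map_sub, map_sub, map_sub, coeff_ll _ _ hn, coeff_ll _ _ hn] at h1
  have h2 : ∀ z : ℤ, ((z.toNat : ℕ) : L) - (((-z).toNat : ℕ) : L) = (z : L) := by
    intro z
    have hz : ((z.toNat : ℕ) : ℤ) - (((-z).toNat : ℕ) : ℤ) = z := by omega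
    calc ((z.toNat : ℕ) : L) - (((-z).toNat : ℕ) : L)
        = ((((z.toNat : ℕ) : ℤ) - (((-z).toNat : ℕ) : ℤ) : ℤ) : L) := by push_cast; rfl
      _ = (z : L) := by rw [hz]
  linear_combination h1 - psi 1 * h2 (coeff n a) - h2 (coeff n b)

theorem coeff_quo_le {N M : ℕ} (h : N ≤ M) (a b : MvPowerSeries (Fin d) ℤ) {n : Fin d →₀ ℕ}
    (hn : n.degree ≤ N) : coeff n (quo M a b) = coeff n (quo N a b) := by
  induction M, h using Nat.le_induction with
  | base => rfl
  | succ M hM ih => rw [coeff_quo_succ_lt a b (by omega), ih]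

theorem lam_congr {N : ℕ} {α β α' β' : (Fin d →₀ ℕ) → ℕ}
    (h : ∀ n : Fin d →₀ ℕ, n.degree ≤ N → α n = α' n ∧ β n = β' n) :
    lam N α β = lam N α' β' := by
  refine Finset.prod_congr rfl fun j hj => Finset.prod_congr rfl fun n hn => ?_
  rw [Finset.mem_Icc] at hj
  rw [mem_fa] at hn
  have h1 := h n (by omega)
  rw [h1.1, h1.2]

theorem quo_congr {N : ℕ} {a b a' b' : MvPowerSeries (Fin d) ℤ}
    (h : ∀ n : Fin d →₀ ℕ, n.degree ≤ N → coeff n a = coeff n a' ∧ coeff n b = coeff n b') :
    quo N a b = quo N a' b' := by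
  have e1 : lam N (fun m => (coeff m a).toNat) (fun m => (coeff m b).toNat) =
      lam N (fun m => (coeff m a').toNat) (fun m => (coeff m b').toNat) :=
    lam_congr fun n hn => ⟨by rw [(h n hn).1], by rw [(h n hn).2]⟩
  have e2 : lam N (fun m => (-coeff m a).toNat) (fun m => (-coeff m b).toNat) =
      lam N (fun m => (-coeff m a').toNat) (fun m => (-coeff m b').toNat) :=
    lam_congr fun n hn => ⟨by rw [(h n hn).1], by rw [(h n hn).2]⟩
  rw [quo, quo, e1, e2]

theorem quo_zero (a b : MvPowerSeries (Fin d) ℤ) : quo 0 a b = 1 := by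
  have h2 : ∀ α β : (Fin d →₀ ℕ) → ℕ, lam (d := d) 0 α β = 1 := by
    intro α β
    rw [lam, Finset.Icc_eq_empty (by norm_num), Finset.prod_empty]
  rw [quo, h2, h2, Ring.inverse_one, mul_one]

/-- the recursive construction of the pair -/
noncomputable def stage : ℕ → MvPowerSeries (Fin d) ℤ × MvPowerSeries (Fin d) ℤ
  | 0 => (0, 0)
  | N + 1 =>
    (fun n => if n.degree = N + 1 then
        mult (1, 1) (coeff n (quo N (stage N).1 (stage N).2)) + (if n.degree = 1 then 1 else 0)
      else coeff n (stage N).1,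
     fun n => if n.degree = N + 1 then mult (0, 0) (coeff n (quo N (stage N).1 (stage N).2))
      else coeff n (stage N).2)

theorem coeff_stage_fst (N : ℕ) (n : Fin d →₀ ℕ) : coeff n (stage (d := d) (N + 1)).1 =
    if n.degree = N + 1 then
      mult (1, 1) (coeff n (quo N (stage N).1 (stage N).2)) + (if n.degree = 1 then 1 else 0)
    else coeff n (stage N).1 := rfl

theorem coeff_stage_snd (N : ℕ) (n : Fin d →₀ ℕ) : coeff n (stage (d := d) (N + 1)).2 =
    if n.degree = N + 1 then mult (0, 0) (coeff n (quo N (stage N).1 (stage N).2))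
      else coeff n (stage N).2 := rfl

theorem stage_le {N M : ℕ} (h : N ≤ M) {n : Fin d →₀ ℕ} (hn : n.degree ≤ N) :
    coeff n (stage (d := d) M).1 = coeff n (stage (d := d) N).1 ∧
      coeff n (stage (d := d) M).2 = coeff n (stage (d := d) N).2 := by
  induction M, h using Nat.le_induction with
  | base => exact ⟨rfl, rfl⟩
  | succ M hM ih =>
    rw [coeff_stage_fst, coeff_stage_snd, if_neg (by omega), if_neg (by omega)]
    exact ih

/-- the first member of the pair -/
noncomputable def pa (d : ℕ) : MvPowerSeries (Fin d) ℤ := fun n => coeff n (stage n.degree).1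

/-- the second member of the pair -/
noncomputable def pb (d : ℕ) : MvPowerSeries (Fin d) ℤ := fun n => coeff n (stage n.degree).2

theorem coeff_pa (n : Fin d →₀ ℕ) : coeff n (pa d) = coeff n (stage n.degree).1 := rfl

theorem coeff_pb (n : Fin d →₀ ℕ) : coeff n (pb d) = coeff n (stage n.degree).2 := rfl

theorem quo_stage (N : ℕ) : quo N (pa d) (pb d) = quo N (stage N).1 (stage N).2 := by
  apply quo_congr
  intro n hn
  rw [coeff_pa, coeff_pb]
  exact ⟨(stage_le hn le_rfl).1.symm, (stage_le hn le_rfl).2.symm⟩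

/-- Determination of the coefficients of degree `N + 1`. -/
theorem mult_quo_succ {N : ℕ} (a b : MvPowerSeries (Fin d) ℤ) {n : Fin d →₀ ℕ}
    (hn : n.degree = N + 1) :
    mult (1, 1) (coeff n (quo (N + 1) a b)) = mult (1, 1) (coeff n (quo N a b)) - coeff n a ∧
    mult (0, 0) (coeff n (quo (N + 1) a b)) = mult (0, 0) (coeff n (quo N a b)) - coeff n b := by
  have c2 : ((coeff n b : ℤ) : L) = ((coeff n b : ℤ) : L) * 1 := by rw [mul_one]
  rw [coeff_quo_succ_eq a b hn, c2]
  constructor
  · rw [sub_eq_add_neg, mult_add, mult_neg, mult_add, mult_intCast_mul, mult_intCast_mul,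
      mult_psi_adj, mult_one_adj]
    ring
  · rw [sub_eq_add_neg, mult_add, mult_neg, mult_add, mult_intCast_mul, mult_intCast_mul,
      mult_psi_zero, mult_one_zero]
    ring

/-- the series `λ(a [L(θ)] + b [L(0)])` -/
noncomputable def pphi (d : ℕ) : MvPowerSeries (Fin d) L :=
  fun n => coeff n (quo n.degree (pa d) (pb d))

theorem coeff_pphi (n : Fin d →₀ ℕ) : coeff n (pphi d) = coeff n (quo n.degree (pa d) (pb d)) :=
  rfl

theorem isPair_pa_pb (d : ℕ) : IsPair (pa d) (pb d) := by
  refine ⟨?_, ?_, pphi d, ?_, ?_, ?_⟩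
  · rw [coeff_pa]
    have : (0 : Fin d →₀ ℕ).degree = 0 := by simp
    rw [this]
    rfl
  · rw [coeff_pb]
    have : (0 : Fin d →₀ ℕ).degree = 0 := by simp
    rw [this]
    rfl
  · rw [isLam_iff]
    intro N n hn
    rw [map_sub, sub_eq_zero, coeff_pphi]
    exact (coeff_quo_le (by omega : n.degree ≤ N) _ _ le_rfl).symm
  · intro n
    rw [coeff_pphi]
    by_cases h0 : n = 0
    · subst h0
      have : (0 : Fin d →₀ ℕ).degree = 0 := by simp
      rw [this, quo_zero, coeff_zero_one, mult_one_zero, if_pos rfl]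
    · rw [if_neg h0]
      have h1 : n.degree ≠ 0 := by
        rwa [Ne, Finsupp.degree_eq_zero_iff]
      obtain ⟨N, hN⟩ : ∃ N, n.degree = N + 1 := ⟨n.degree - 1, by omega⟩
      rw [hN, (mult_quo_succ _ _ hN).2, quo_stage, coeff_pb, hN, coeff_stage_snd, if_pos hN,
        sub_self]
  · intro n
    rw [coeff_pphi]
    by_cases h0 : n = 0
    · subst h0
      have : (0 : Fin d →₀ ℕ).degree = 0 := by simp
      rw [this, quo_zero, coeff_zero_one, mult_one_adj, if_neg (by norm_num)]
    · have h1 : n.degree ≠ 0 := by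
        rwa [Ne, Finsupp.degree_eq_zero_iff]
      obtain ⟨N, hN⟩ : ∃ N, n.degree = N + 1 := ⟨n.degree - 1, by omega⟩
      rw [hN, (mult_quo_succ _ _ hN).1, quo_stage, coeff_pa, hN, coeff_stage_fst, if_pos hN, hN]
      split_ifs <;> ring

theorem isPair_unique {a b a' b' : MvPowerSeries (Fin d) ℤ} (h : IsPair a b) (h' : IsPair a' b') :
    a = a' ∧ b = b' := by
  obtain ⟨ha, hb, Φ, h1, h2, h3⟩ := h
  obtain ⟨ha', hb', Φ', h1', h2', h3'⟩ := h'
  rw [isLam_iff] at h1 h1'
  have key : ∀ N, ∀ n : Fin d →₀ ℕ, n.degree ≤ N → coeff n a = coeff n a' ∧ coeff n b = coeff n b' := by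
    intro N
    induction N with
    | zero =>
      intro n hn
      have : n = 0 := by
        rw [← Finsupp.degree_eq_zero_iff]
        omega
      subst this
      rw [ha, ha', hb, hb']
      exact ⟨rfl, rfl⟩
    | succ N ih =>
      intro n hn
      rcases Nat.lt_or_ge n.degree (N + 1) with hlt | hge
      · exact ih n (by omega)
      · have hN : n.degree = N + 1 := le_antisymm hn hge
        have e1 := h1 (N + 1) n (by omega)
        have e2 := h1' (N + 1) n (by omega)
        rw [map_sub, sub_eq_zero] at e1 e2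
        have f1 := h3 n
        have f2 := h3' n
        have g1 := h2 n
        have g2 := h2' n
        rw [e1, (mult_quo_succ _ _ hN).1] at f1
        rw [e2, (mult_quo_succ _ _ hN).1, ← quo_congr ih] at f2
        rw [e1, (mult_quo_succ _ _ hN).2] at g1
        rw [e2, (mult_quo_succ _ _ hN).2, ← quo_congr ih] at g2
        constructor
        · linarith
        · linarith
  constructor
  · ext n
    exact (key n.degree n le_rfl).1
  · ext n
    exact (key n.degree n le_rfl).2

theorem existsUnique_pair (d : ℕ) :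
    ∃! p : MvPowerSeries (Fin d) ℤ × MvPowerSeries (Fin d) ℤ, IsPair p.1 p.2 :=
  ⟨(pa d, pb d), isPair_pa_pb d, fun _ hp => Prod.ext (isPair_unique hp (isPair_pa_pb d)).1
    (isPair_unique hp (isPair_pa_pb d)).2⟩

end Pool.Agent.Q114.Sh
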