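import Mathlib
import Pool.Agent.Q114.Sh.Defs

/-!
# Laurent polynomials as lists of lists
-/

set_option autoImplicit false

namespace Pool.Agent.Q114.Sh

/-- `acc + c l` -/
def axpy (c : ℤ) : List ℤ → List ℤ → List ℤ
  | acc, [] => acc
  | [], x :: l => (c * x) :: axpy c [] l
  | a :: acc, x :: l => (a + c * x) :: axpy c acc l

/-- `acc + X^n c l` -/
def axpyAt (c : ℤ) : ℕ → List ℤ → List ℤ → List ℤ
  | 0, acc, l => axpy c acc l
  | n + 1, [], l => 0 :: axpyAt c n [] l
  | n + 1, a :: acc, l => a :: axpyAt c n acc l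

/-- the same for rows -/
def raxpy (c : ℤ) (v : ℕ) : List (List ℤ) → List (List ℤ) → List (List ℤ)
  | acc, [] => acc
  | [], r :: l => axpyAt c v [] r :: raxpy c v [] l
  | a :: acc, r :: l => axpyAt c v a r :: raxpy c v acc l

/-- `acc + Y^u X^v c l` -/
def raxpyAt (c : ℤ) (v : ℕ) : ℕ → List (List ℤ) → List (List ℤ) → List (List ℤ)
  | 0, acc, l => raxpy c v acc l
  | n + 1, [], l => [] :: raxpyAt c v n [] l
  | n + 1, a :: acc, l => a :: raxpyAt c v n acc l

section

variable {R : Type*} [CommRing R] (X Y : R)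

/-- evaluation of a list -/
def ev (X : R) : List ℤ → R
  | [] => 0
  | c :: l => (c : R) + X * ev X l

/-- evaluation of rows -/
def ev2 (X Y : R) : List (List ℤ) → R
  | [] => 0
  | r :: l => ev X r + Y * ev2 X Y l

theorem ev_axpy (c : ℤ) (acc l : List ℤ) : ev X (axpy c acc l) = ev X acc + c * ev X l := by
  induction l generalizing acc with
  | nil => simp [axpy, ev]
  | cons x l ih =>
    cases acc with
    | nil =>
      simp only [axpy, ev, ih]
      push_cast
      ring
    | cons a acc =>
      simp only [axpy, ev, ih]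
      push_cast
      ring

theorem ev_axpyAt (c : ℤ) (n : ℕ) (acc l : List ℤ) :
    ev X (axpyAt c n acc l) = ev X acc + c * X ^ n * ev X l := by
  induction n generalizing acc with
  | zero => rw [axpyAt, ev_axpy, pow_zero, mul_one]
  | succ n ih =>
    cases acc with
    | nil =>
      simp only [axpyAt, ev, ih]
      push_cast
      ring
    | cons a acc =>
      simp only [axpyAt, ev, ih]
      ring

theorem ev2_raxpy (c : ℤ) (v : ℕ) (acc l : List (List ℤ)) :
    ev2 X Y (raxpy c v acc l) = ev2 X Y acc + c * X ^ v * ev2 X Y l := by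
  induction l generalizing acc with
  | nil => simp [raxpy, ev2]
  | cons x l ih =>
    cases acc with
    | nil =>
      simp only [raxpy, ev2, ih, ev_axpyAt, ev]
      ring
    | cons a acc =>
      simp only [raxpy, ev2, ih, ev_axpyAt]
      ring

theorem ev2_raxpyAt (c : ℤ) (v n : ℕ) (acc l : List (List ℤ)) :
    ev2 X Y (raxpyAt c v n acc l) = ev2 X Y acc + c * X ^ v * Y ^ n * ev2 X Y l := by
  induction n generalizing acc with
  | zero => rw [raxpyAt, ev2_raxpy, pow_zero, mul_one]
  | succ n ih =>
    cases acc with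
    | nil =>
      simp only [raxpyAt, ev2, ih, ev]
      ring
    | cons a acc =>
      simp only [raxpyAt, ev2, ih]
      ring

/-- all entries are zero -/
def allZero (l : List (List ℤ)) : Bool := l.all fun r => r.all fun x => x == 0

theorem ev_eq_zero (l : List ℤ) (h : (l.all fun x => x == 0) = true) : ev X l = 0 := by
  induction l with
  | nil => rfl
  | cons x l ih =>
    rw [List.all_cons, Bool.and_eq_true] at h
    rw [ev, ih h.2, beq_iff_eq.1 h.1]
    simp

theorem ev2_eq_zero (l : List (List ℤ)) (h : allZero l = true) : ev2 X Y l = 0 := by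
  unfold allZero at h
  induction l with
  | nil => rfl
  | cons x l ih =>
    rw [List.all_cons, Bool.and_eq_true] at h
    rw [ev2, ih h.2, ev_eq_zero X x h.1]
    simp

/-- sum of the products with the terms `c X^v Y^u`, `(c, u, v)` in a list -/
def mulTerms (l : List (List ℤ)) (terms : List (ℤ × ℕ × ℕ)) (acc : List (List ℤ)) :
    List (List ℤ) :=
  terms.foldl (fun acc t => raxpyAt t.1 t.2.2 t.2.1 acc l) acc

/-- value of a list of terms -/
def evT (X Y : R) (terms : List (ℤ × ℕ × ℕ)) : R :=
  (terms.map fun t => (t.1 : R) * X ^ t.2.2 * Y ^ t.2.1).sum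

theorem ev2_mulTerms (l : List (List ℤ)) (terms : List (ℤ × ℕ × ℕ)) (acc : List (List ℤ)) :
    ev2 X Y (mulTerms l terms acc) = ev2 X Y acc + evT X Y terms * ev2 X Y l := by
  induction terms generalizing acc with
  | nil => simp [mulTerms, evT]
  | cons t terms ih =>
    have h := ih (raxpyAt t.1 t.2.2 t.2.1 acc l)
    unfold mulTerms at h ⊢
    rw [List.foldl_cons, h, ev2_raxpyAt]
    simp only [evT, List.map_cons, List.sum_cons]
    ring

end

theorem coeff_ex_mul (ν μ : ℤ × ℤ) (f : L) : (ex ν * f).coeff μ = f.coeff (μ - ν) := by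
  rw [ex, AddMonoidAlgebra.coeff_single_mul_apply, one_mul, sub_eq_neg_add]

theorem ex_add (ν μ : ℤ × ℤ) : ex (ν + μ) = ex ν * ex μ := by
  rw [ex, ex, ex, AddMonoidAlgebra.single_mul_single, one_mul]

theorem ex_zero : ex 0 = 1 := rfl

theorem ex_pow (ν : ℤ × ℤ) (n : ℕ) : ex ν ^ n = ex (n • ν) := by
  induction n with
  | zero => rw [pow_zero, zero_smul, ex_zero]
  | succ n ih => rw [pow_succ, ih, ← ex_add, succ_nsmul]

theorem coeff_intCast (c : ℤ) (μ : ℤ × ℤ) : ((c : L)).coeff μ = if μ = 0 then c else 0 := by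
  have h : (c : L) = AddMonoidAlgebra.single 0 c := by
    rw [AddMonoidAlgebra.intCast_def]
    rfl
  rw [h, AddMonoidAlgebra.coeff_single, Finsupp.single_apply]
  simp only [eq_comm]

theorem coeff_ev (l : List ℤ) (i j : ℤ) : (ev (ex (0, 1)) l).coeff (i, j) =
    if i = 0 ∧ 0 ≤ j then l.getD j.toNat 0 else 0 := by
  induction l generalizing j with
  | nil => simp [ev]
  | cons c l ih =>
    rw [ev, AddMonoidAlgebra.coeff_add, Finsupp.add_apply, coeff_ex_mul, coeff_intCast,
      Prod.mk_sub_mk, sub_zero, ih]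
    by_cases hi : i = 0
    · subst hi
      rcases lt_trichotomy j 0 with hj | rfl | hj
      · rw [if_neg, if_neg, if_neg]
        · simp
        · omega
        · omega
        · intro h
          have := (Prod.ext_iff.1 h).2
          simp at this
          omega
      · simp
      · obtain ⟨n, rfl⟩ : ∃ n : ℕ, j = n + 1 := ⟨(j - 1).toNat, by omega⟩
        rw [if_neg, if_pos, if_pos]
        · have h1 : ((n : ℤ) + 1 - 1).toNat = n := by omega
          have h2 : ((n : ℤ) + 1).toNat = n + 1 := by omega
          rw [h1, h2]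
          simp
        · omega
        · omega
        · intro h
          have := (Prod.ext_iff.1 h).2
          simp at this
          omega
    · rw [if_neg, if_neg, if_neg]
      · simp
      · tauto
      · tauto
      · intro h
        exact hi (Prod.ext_iff.1 h).1

theorem coeff_ev2 (l : List (List ℤ)) (i j : ℤ) : (ev2 (ex (0, 1)) (ex (1, 0)) l).coeff (i, j) =
    if 0 ≤ i ∧ 0 ≤ j then (l.getD i.toNat []).getD j.toNat 0 else 0 := by
  induction l generalizing i with
  | nil => simp [ev2]
  | cons c l ih =>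
    rw [ev2, AddMonoidAlgebra.coeff_add, Finsupp.add_apply, coeff_ex_mul, coeff_ev,
      Prod.mk_sub_mk, sub_zero, ih]
    rcases lt_trichotomy i 0 with hi | rfl | hi
    · rw [if_neg (by omega), if_neg (by omega), if_neg (by omega), add_zero]
    · rw [if_neg (by omega : ¬(0 ≤ (0 : ℤ) - 1 ∧ 0 ≤ j)), add_zero]
      simp
    · obtain ⟨n, rfl⟩ : ∃ n : ℕ, i = n + 1 := ⟨(i - 1).toNat, by omega⟩
      have h1 : ((n : ℤ) + 1 - 1).toNat = n := by omega
      have h2 : ((n : ℤ) + 1).toNat = n + 1 := by omega
      rw [if_neg (by omega), h1, h2, zero_add]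
      by_cases hj : 0 ≤ j
      · rw [if_pos (by omega), if_pos (by omega)]
        simp
      · rw [if_neg (by omega), if_neg (by omega)]

end Pool.Agent.Q114.Sh
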